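import Pool.Agent.Zk96.QE.Win

/-! The window lemma with a bound which decays away from a short window. -/

set_option autoImplicit false
set_option linter.unusedSectionVars false

open scoped BigOperators Topology Interval
open MeasureTheory Filter

namespace Pool.Agent.Zk96.QE

open Pool.Agent.Zk60.LL.Cau

/-- the pointwise bound for one centre, with the support around `c` -/
theorem pwc (φ : ℝ → ℝ) (K M c : ℝ) (hK : 0 ≤ K) (hMp : 0 < M) (hφ0 : ∀ u, 0 ≤ φ u)
    (hφL : ∀ u v, |φ u - φ v| ≤ K * |u - v|)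
    (hsupp : ∀ u, M < |u - c| → φ u = 0) (η : ℝ) (hη : 0 < η) (a b u : ℝ) :
    Set.indicator (Set.Icc (a - 2 * M) (a + 2 * M))
      (fun u => φ a * (η / ((a - u) ^ 2 + η ^ 2)) -
        3 * K * η * (|u - a| / ((a - u) ^ 2 + η ^ 2))) u -
    φ a * ww η a b u - Set.indicator (Set.Icc (c - M) (c + M)) (fun _ => K * η / M) u ≤
    φ u * (η / ((a - u) ^ 2 + η ^ 2)) - φ u * ww η a b u := by
  have ha := den_pos η a u hη
  have hw0 := ww_nonneg η a b u hη
  have hw1 := ww_le η a b u hη
  set A : ℝ := η / ((a - u) ^ 2 + η ^ 2) with hA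
  have hA0 : 0 ≤ A := by positivity
  have hL := abs_le.1 (hφL u a)
  have hKabs : 0 ≤ K * |u - a| := by positivity
  -- bound for the negative part
  have h1 : φ u * ww η a b u ≤ φ a * ww η a b u +
      Set.indicator (Set.Icc (c - M) (c + M)) (fun _ => 2 * K * |u - a| * A) u := by
    by_cases hu : u ∈ Set.Icc (c - M) (c + M)
    · rw [Set.indicator_of_mem hu]
      have h2 : φ u ≤ φ a + K * |u - a| := by linarith [hL.2]
      have h3 : φ u * ww η a b u ≤ (φ a + K * |u - a|) * ww η a b u :=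
        mul_le_mul_of_nonneg_right h2 hw0
      have h4 : K * |u - a| * ww η a b u ≤ K * |u - a| * (2 * A) :=
        mul_le_mul_of_nonneg_left hw1 hKabs
      nlinarith
    · rw [Set.indicator_of_notMem hu, add_zero]
      have h2 : φ u = 0 := by
        apply hsupp
        by_contra hcon
        push Not at hcon
        have := abs_le.1 hcon
        exact hu ⟨by linarith [this.1], by linarith [this.2]⟩
      rw [h2, zero_mul]
      exact mul_nonneg (hφ0 a) hw0
  by_cases hS : u ∈ Set.Icc (a - 2 * M) (a + 2 * M)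
  · rw [Set.indicator_of_mem hS]
    have h2 : φ a * A - K * |u - a| * A ≤ φ u * A := by
      have : φ a - K * |u - a| ≤ φ u := by linarith [hL.1]
      nlinarith
    have h3 : Set.indicator (Set.Icc (c - M) (c + M)) (fun _ => 2 * K * |u - a| * A) u ≤
        2 * K * |u - a| * A := by
      by_cases hu : u ∈ Set.Icc (c - M) (c + M)
      · rw [Set.indicator_of_mem hu]
      · rw [Set.indicator_of_notMem hu]
        positivity
    have h4 : 0 ≤ Set.indicator (Set.Icc (c - M) (c + M)) (fun _ => K * η / M) u :=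
      Set.indicator_nonneg (fun _ _ => by positivity) _
    have h5 : 3 * K * η * (|u - a| / ((a - u) ^ 2 + η ^ 2)) = 3 * (K * |u - a| * A) := by
      rw [hA]
      ring
    rw [h5]
    linarith
  · rw [Set.indicator_of_notMem hS]
    have h2 : 0 ≤ φ u * A := mul_nonneg (hφ0 u) hA0
    have h3 : Set.indicator (Set.Icc (c - M) (c + M)) (fun _ => 2 * K * |u - a| * A) u ≤
        Set.indicator (Set.Icc (c - M) (c + M)) (fun _ => K * η / M) u := by
      by_cases hu : u ∈ Set.Icc (c - M) (c + M)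
      · rw [Set.indicator_of_mem hu, Set.indicator_of_mem hu]
        have h6 : 2 * M < |u - a| := by
          by_contra hcon
          push Not at hcon
          have := abs_le.1 hcon
          exact hS ⟨by linarith [this.1], by linarith [this.2]⟩
        have h7 : |u - a| * A ≤ η / (2 * M) := by
          rw [hA, ← mul_div_assoc, div_le_div_iff₀ ha (by positivity)]
          have h8 : |u - a| * |u - a| = (a - u) ^ 2 := by
            rw [abs_mul_abs_self]
            ring
          have h9 : |u - a| * (2 * M) ≤ (a - u) ^ 2 + η ^ 2 := by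
            nlinarith [abs_nonneg (u - a), sq_nonneg η]
          nlinarith
        have h8 : 2 * K * |u - a| * A = 2 * K * (|u - a| * A) := by ring
        rw [h8]
        calc 2 * K * (|u - a| * A) ≤ 2 * K * (η / (2 * M)) :=
              mul_le_mul_of_nonneg_left h7 (by positivity)
          _ = K * η / M := by field_simp
      · rw [Set.indicator_of_notMem hu, Set.indicator_of_notMem hu]
    linarith

theorem one_centre_c (φ : ℝ → ℝ) (K M c : ℝ) (hMp : 0 < M) (hφ0 : ∀ u, 0 ≤ φ u)
    (hφ1 : ∀ u, φ u ≤ 1) (η : ℝ) (hη : 0 < η) (a b : ℝ) :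
    -(η / M + 3 * K * η * (Real.log ((2 * M) ^ 2 + η ^ 2) - Real.log (η ^ 2)) + 2 * (K * η)) ≤
    ∫ u, (Set.indicator (Set.Icc (a - 2 * M) (a + 2 * M))
      (fun u => φ a * (η / ((a - u) ^ 2 + η ^ 2)) -
        3 * K * η * (|u - a| / ((a - u) ^ 2 + η ^ 2))) u -
    φ a * ww η a b u - Set.indicator (Set.Icc (c - M) (c + M)) (fun _ => K * η / M) u) := by
  have hc1 : Continuous (fun u : ℝ => η / ((a - u) ^ 2 + η ^ 2)) := by
    refine Continuous.div (by fun_prop) (by fun_prop) fun u => (den_pos η a u hη).ne'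
  have hc2 : Continuous (fun u : ℝ => |u - a| / ((a - u) ^ 2 + η ^ 2)) := by
    refine Continuous.div (by fun_prop) (by fun_prop) fun u => (den_pos η a u hη).ne'
  have hc3 : Continuous (fun u : ℝ => φ a * (η / ((a - u) ^ 2 + η ^ 2)) -
        3 * K * η * (|u - a| / ((a - u) ^ 2 + η ^ 2))) :=
    (continuous_const.mul hc1).sub (continuous_const.mul hc2)
  have i1 := ind_int _ hc3 (a - 2 * M) (a + 2 * M)
  have i2 := (ww_int η a b hη).const_mul (φ a)
  have i3 := ind_int (fun _ => K * η / M) continuous_const (c - M) (c + M)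
  rw [integral_sub (f := fun u => Set.indicator (Set.Icc (a - 2 * M) (a + 2 * M))
      (fun u => φ a * (η / ((a - u) ^ 2 + η ^ 2)) -
        3 * K * η * (|u - a| / ((a - u) ^ 2 + η ^ 2))) u -
    φ a * ww η a b u) (g := fun u => Set.indicator (Set.Icc (c - M) (c + M))
      (fun _ => K * η / M) u) (i1.sub i2) i3,
    integral_sub (f := fun u => Set.indicator (Set.Icc (a - 2 * M) (a + 2 * M))
      (fun u => φ a * (η / ((a - u) ^ 2 + η ^ 2)) -
        3 * K * η * (|u - a| / ((a - u) ^ 2 + η ^ 2))) u) (g := fun u => φ a * ww η a b u) i1 i2,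
    integral_const_mul, integral_indicator measurableSet_Icc,
    integral_indicator measurableSet_Icc, integral_Icc_eq_integral_Ioc,
    ← intervalIntegral.integral_of_le (by linarith), intervalIntegral.integral_sub
      (f := fun u => φ a * (η / ((a - u) ^ 2 + η ^ 2)))
      (g := fun u => 3 * K * η * (|u - a| / ((a - u) ^ 2 + η ^ 2)))
      ((continuous_const.mul hc1).intervalIntegrable _ _)
      ((continuous_const.mul hc2).intervalIntegrable _ _),
    intervalIntegral.integral_const_mul, intervalIntegral.integral_const_mul,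
    cau_near η a (2 * M) hη, mom_near η a (2 * M) hη (by positivity)]
  have h1 : ∫ _u in Set.Icc (c - M) (c + M), K * η / M = 2 * (K * η) := by
    rw [setIntegral_const, Real.volume_real_Icc_of_le (by linarith), smul_eq_mul]
    field_simp
    ring
  rw [h1]
  have h2 := arctan_ge (2 * M / η) (by positivity)
  have h3 := ww_val η a b hη
  have h4 : φ a * (2 * Real.arctan (2 * M / η)) ≥ φ a * Real.pi - η / M := by
    have h5 : Real.pi - η / M ≤ 2 * Real.arctan (2 * M / η) := by
      have : 1 / (2 * M / η) = η / M / 2 := by field_simp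
      rw [this] at h2
      linarith
    have h6 := mul_le_mul_of_nonneg_left h5 (hφ0 a)
    have h7 : φ a * (η / M) ≤ η / M := by
      have : 0 ≤ η / M := by positivity
      nlinarith [hφ1 a]
    nlinarith
  have h5 := mul_le_mul_of_nonneg_left h3 (hφ0 a)
  linarith

/-- the integral of one half of the product kernel -/
theorem hh_int (φ : ℝ → ℝ) (hφc : Continuous φ) (hφ0 : ∀ u, 0 ≤ φ u) (hφ1 : ∀ u, φ u ≤ 1)
    (η : ℝ) (hη : 0 < η) (a b : ℝ) : Integrable fun u => φ u * (η / ((a - u) ^ 2 + η ^ 2)) -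
      φ u * ww η a b u := by
  have hb : ∀ᵐ u : ℝ, ‖φ u‖ ≤ 1 := Eventually.of_forall fun u => by
    rw [Real.norm_eq_abs, abs_of_nonneg (hφ0 u)]
    exact hφ1 u
  exact ((pk_int η a hη).bdd_mul hφc.aestronglyMeasurable hb).sub
      ((ww_int η a b hη).bdd_mul hφc.aestronglyMeasurable hb)

theorem near (φ : ℝ → ℝ) (K M c : ℝ) (hK : 0 ≤ K) (hM : 0 < M) (hφc : Continuous φ)
    (hφ0 : ∀ u, 0 ≤ φ u) (hφ1 : ∀ u, φ u ≤ 1) (hφL : ∀ u v, |φ u - φ v| ≤ K * |u - v|)
    (hsupp : ∀ u, M < |u - c| → φ u = 0) (η : ℝ) (hη : 0 < η) (a b : ℝ) :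
    -(η / M + 3 * K * η * (Real.log ((2 * M) ^ 2 + η ^ 2) - Real.log (η ^ 2)) + 2 * (K * η)) ≤
      ∫ u, (φ u * (η / ((a - u) ^ 2 + η ^ 2)) - φ u * ww η a b u) := by
  refine (one_centre_c φ K M c hM hφ0 hφ1 η hη a b).trans ?_
  have hc1 : Continuous (fun u : ℝ => η / ((a - u) ^ 2 + η ^ 2)) := by
    refine Continuous.div (by fun_prop) (by fun_prop) fun u => (den_pos η a u hη).ne'
  have hc2 : Continuous (fun u : ℝ => |u - a| / ((a - u) ^ 2 + η ^ 2)) := by
    refine Continuous.div (by fun_prop) (by fun_prop) fun u => (den_pos η a u hη).ne'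
  have hc3 : Continuous (fun u : ℝ => φ a * (η / ((a - u) ^ 2 + η ^ 2)) -
        3 * K * η * (|u - a| / ((a - u) ^ 2 + η ^ 2))) :=
    (continuous_const.mul hc1).sub (continuous_const.mul hc2)
  refine integral_mono (((ind_int _ hc3 _ _).sub ((ww_int η a b hη).const_mul _)).sub
      (ind_int _ continuous_const _ _)) (hh_int φ hφc hφ0 hφ1 η hη a b)
    fun u => pwc φ K M c hK hM hφ0 hφL hsupp η hη a b u

theorem far (φ : ℝ → ℝ) (c D : ℝ) (hD : 0 < D) (hφc : Continuous φ)
    (hφ0 : ∀ u, 0 ≤ φ u) (hφ1 : ∀ u, φ u ≤ 1)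
    (hsupp : ∀ u, 3 / 2 * D < |u - c| → φ u = 0) (η : ℝ) (hη : 0 < η) (a b : ℝ)
    (ha : 3 * D ≤ |a - c|) :
    -(24 * D * η / (a - c) ^ 2) ≤
      ∫ u, (φ u * (η / ((a - u) ^ 2 + η ^ 2)) - φ u * ww η a b u) := by
  have hac : 0 < (a - c) ^ 2 := by
    rw [← sq_abs]
    have : 0 < |a - c| := by linarith
    positivity
  have h1 : ∀ u, -(Set.indicator (Set.Icc (c - 3 / 2 * D) (c + 3 / 2 * D))
      (fun _ => 8 * η / (a - c) ^ 2) u) ≤
      φ u * (η / ((a - u) ^ 2 + η ^ 2)) - φ u * ww η a b u := by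
    intro u
    have hp := den_pos η a u hη
    by_cases hu : u ∈ Set.Icc (c - 3 / 2 * D) (c + 3 / 2 * D)
    · rw [Set.indicator_of_mem hu]
      have h2 := ww_le η a b u hη
      have h3 : 0 ≤ φ u * (η / ((a - u) ^ 2 + η ^ 2)) := mul_nonneg (hφ0 u) (by positivity)
      have h4 : φ u * ww η a b u ≤ 1 * (2 * (η / ((a - u) ^ 2 + η ^ 2))) :=
        mul_le_mul (hφ1 u) h2 (ww_nonneg η a b u hη) zero_le_one
      have h5 : (a - c) ^ 2 / 4 ≤ (a - u) ^ 2 := by
        have h6 : |u - c| ≤ 3 / 2 * D := abs_le.2 ⟨by linarith [hu.1], by linarith [hu.2]⟩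
        have h7 : |a - c| ≤ |a - u| + |u - c| := abs_sub_le _ _ _
        have h8 : |a - c| / 2 ≤ |a - u| := by linarith
        have h9 : (|a - c| / 2) ^ 2 ≤ |a - u| ^ 2 :=
          pow_le_pow_left₀ (by positivity) h8 2
        rw [sq_abs, div_pow, sq_abs] at h9
        linarith
      have h6 : η / ((a - u) ^ 2 + η ^ 2) ≤ 4 * η / (a - c) ^ 2 := by
        rw [div_le_div_iff₀ hp hac]
        nlinarith [sq_nonneg η]
      have h7 : 8 * η / (a - c) ^ 2 = 2 * (4 * η / (a - c) ^ 2) := by ring
      rw [h7]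
      linarith
    · rw [Set.indicator_of_notMem hu, neg_zero]
      have h2 : φ u = 0 := by
        apply hsupp
        by_contra hcon
        push Not at hcon
        have := abs_le.1 hcon
        exact hu ⟨by linarith [this.1], by linarith [this.2]⟩
      rw [h2]
      simp
  have h2 := integral_mono (ind_int (fun _ => 8 * η / (a - c) ^ 2) continuous_const
    (c - 3 / 2 * D) (c + 3 / 2 * D)).neg (hh_int φ hφc hφ0 hφ1 η hη a b) (fun u => h1 u)
  refine le_trans (le_of_eq ?_) h2
  have h3 : ∫ u, (-(Set.indicator (Set.Icc (c - 3 / 2 * D) (c + 3 / 2 * D))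
      (fun _ => 8 * η / (a - c) ^ 2))) u = - ∫ u, (Set.indicator
      (Set.Icc (c - 3 / 2 * D) (c + 3 / 2 * D)) (fun _ => 8 * η / (a - c) ^ 2)) u := by
    rw [← integral_neg]
    rfl
  rw [h3, integral_indicator measurableSet_Icc, setIntegral_const,
    Real.volume_real_Icc_of_le (by linarith), smul_eq_mul]
  ring

/-- the weight -/
noncomputable def qq (D c a : ℝ) : ℝ := D ^ 2 / ((a - c) ^ 2 + D ^ 2)

theorem qq_pos (D c a : ℝ) (hD : 0 < D) : 0 < qq D c a := by
  unfold qq
  positivity

theorem qq_cont (D c : ℝ) (hD : 0 < D) : Continuous (qq D c) := by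
  unfold qq
  refine Continuous.div (by fun_prop) (by fun_prop) fun u => ?_
  positivity

/-- the bound with decay, for one centre -/
theorem half_bound (φ : ℝ → ℝ) (c D : ℝ) (hD : 0 < D) (hφc : Continuous φ)
    (hφ0 : ∀ u, 0 ≤ φ u) (hφ1 : ∀ u, φ u ≤ 1) (hφL : ∀ u v, |φ u - φ v| ≤ 2 / D * |u - v|)
    (hsupp : ∀ u, 3 / 2 * D < |u - c| → φ u = 0) (η : ℝ) (hη : 0 < η) (hηD : η ≤ D) (a b : ℝ) :
    -(260 * (η / D * (1 + Real.log (D / η))) * qq D c a) ≤
      ∫ u, (φ u * (η / ((a - u) ^ 2 + η ^ 2)) - φ u * ww η a b u) := by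
  have hlog : 0 ≤ Real.log (D / η) := by
    apply Real.log_nonneg
    rw [le_div_iff₀ hη]
    linarith
  have hr : 0 ≤ η / D := by positivity
  have hρ : 0 ≤ η / D * (1 + Real.log (D / η)) := by positivity
  have hden : 0 < (a - c) ^ 2 + D ^ 2 := by positivity
  rcases le_total (3 * D) |a - c| with ha | ha
  · refine le_trans ?_ (far φ c D hD hφc hφ0 hφ1 hsupp η hη a b ha)
    have hac : 0 < (a - c) ^ 2 := by
      rw [← sq_abs]
      have : 0 < |a - c| := by linarith
      positivity
    have h9 : 9 * D ^ 2 ≤ (a - c) ^ 2 := by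
      have h9 : (3 * D) ^ 2 ≤ |a - c| ^ 2 := pow_le_pow_left₀ (by positivity) ha 2
      rw [sq_abs] at h9
      linarith
    have h1 : 24 * D * η / (a - c) ^ 2 ≤ 27 * (η / D) * qq D c a := by
      unfold qq
      have h2 : 27 * (η / D) * (D ^ 2 / ((a - c) ^ 2 + D ^ 2)) =
          27 * D * η / ((a - c) ^ 2 + D ^ 2) := by
        field_simp
      rw [h2, div_le_div_iff₀ hac hden]
      have h3 : 0 ≤ D * η := by positivity
      nlinarith [mul_le_mul_of_nonneg_left h9 h3]
    have h2 : 27 * (η / D) * qq D c a ≤ 260 * (η / D * (1 + Real.log (D / η))) * qq D c a := by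
      refine mul_le_mul_of_nonneg_right ?_ (qq_pos D c a hD).le
      nlinarith [mul_nonneg hr hlog]
    linarith
  · refine le_trans ?_ (near φ (2 / D) (2 * D) c (by positivity) (by positivity) hφc hφ0 hφ1 hφL
      (fun u hu => hsupp u (by linarith)) η hη a b)
    have h1 : Real.log ((2 * (2 * D)) ^ 2 + η ^ 2) - Real.log (η ^ 2) ≤
        7 / 2 + 2 * Real.log (D / η) := by
      have h2 : Real.log ((2 * (2 * D)) ^ 2 + η ^ 2) ≤ Real.log (32 * D ^ 2) := by
        apply Real.log_le_log (by positivity)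
        nlinarith
      have h3 : Real.log (32 * D ^ 2) = Real.log 32 + 2 * Real.log D := by
        rw [Real.log_mul (by norm_num) (by positivity), Real.log_pow]
        push_cast
        ring
      have h4 : Real.log 32 ≤ 7 / 2 := by
        have h5 : (32 : ℝ) = 2 ^ 5 := by norm_num
        rw [h5, Real.log_pow]
        have := Real.log_two_lt_d9
        push_cast
        linarith
      rw [Real.log_div hD.ne' hη.ne', Real.log_pow]
      push_cast
      linarith
    have hq : 1 / 10 ≤ qq D c a := by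
      unfold qq
      rw [div_le_div_iff₀ (by norm_num) hden]
      have h9 : |a - c| ^ 2 ≤ (3 * D) ^ 2 := pow_le_pow_left₀ (by positivity) ha 2
      rw [sq_abs] at h9
      nlinarith
    have h5 : η / (2 * D) = 1 / 2 * (η / D) := by
      field_simp
    have h6 : 3 * (2 / D) * η * (Real.log ((2 * (2 * D)) ^ 2 + η ^ 2) - Real.log (η ^ 2)) ≤
        6 * (η / D) * (7 / 2 + 2 * Real.log (D / η)) := by
      have h7 : 3 * (2 / D) * η = 6 * (η / D) := by ring
      rw [h7]
      exact mul_le_mul_of_nonneg_left h1 (by positivity)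
    have h7 : 2 * (2 / D * η) = 4 * (η / D) := by ring
    have h8 : 26 * (η / D * (1 + Real.log (D / η))) ≤
        260 * (η / D * (1 + Real.log (D / η))) * qq D c a := by
      nlinarith [mul_le_mul_of_nonneg_left hq hρ]
    rw [h5, h7]
    nlinarith [mul_nonneg hr hlog]

/-- **the window lemma with decay** -/
theorem window_loc (φ : ℝ → ℝ) (c D : ℝ) (hD : 0 < D) (hφc : Continuous φ)
    (hφ0 : ∀ u, 0 ≤ φ u) (hφ1 : ∀ u, φ u ≤ 1) (hφL : ∀ u v, |φ u - φ v| ≤ 2 / D * |u - v|)
    (hsupp : ∀ u, 3 / 2 * D < |u - c| → φ u = 0) (η : ℝ) (hη : 0 < η) (hηD : η ≤ D) (a b : ℝ) :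
    -(1 / 2 * (260 * (η / D * (1 + Real.log (D / η))) * qq D c a) +
      1 / 2 * (260 * (η / D * (1 + Real.log (D / η))) * qq D c b)) ≤
      ∫ u, φ u * (η * fc η a b u) := by
  have h3 := half_bound φ c D hD hφc hφ0 hφ1 hφL hsupp η hη hηD a b
  have h4 := half_bound φ c D hD hφc hφ0 hφ1 hφL hsupp η hη hηD b a
  have hI : ∀ a b : ℝ, Integrable fun u => φ u * (η / ((a - u) ^ 2 + η ^ 2)) -
      φ u * ww η a b u := hh_int φ hφc hφ0 hφ1 η hη
  have h5 : ∫ u, φ u * (η * fc η a b u) =
      1 / 2 * (∫ u, (φ u * (η / ((a - u) ^ 2 + η ^ 2)) - φ u * ww η a b u)) +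
      1 / 2 * ∫ u, (φ u * (η / ((b - u) ^ 2 + η ^ 2)) - φ u * ww η b a u) := by
    rw [← integral_const_mul, ← integral_const_mul, ← integral_add ((hI a b).const_mul _)
      ((hI b a).const_mul _)]
    refine integral_congr_ae (Eventually.of_forall fun u => ?_)
    simp only
    rw [fc_dec η a b u hη]
    ring
  rw [h5]
  linarith

theorem qq_int (D c : ℝ) (hD : 0 < D) : Integrable (qq D c) := by
  refine ((pk_int D c hD).const_mul D).congr (Eventually.of_forall fun u => ?_)
  simp only
  unfold qq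
  have : (c - u) ^ 2 = (u - c) ^ 2 := by ring
  rw [this]
  ring

theorem qq_val (D c : ℝ) (hD : 0 < D) : ∫ u, qq D c u = Real.pi * D := by
  rw [← pk_val D c hD, ← integral_mul_const]
  refine integral_congr_ae (Eventually.of_forall fun u => ?_)
  simp only
  unfold qq
  have : (c - u) ^ 2 = (u - c) ^ 2 := by ring
  rw [this]
  ring

theorem qq_le (D c u : ℝ) (hD : 0 < D) : qq D c u ≤ 1 := by
  unfold qq
  rw [div_le_one (by positivity)]
  nlinarith [sq_nonneg (u - c)]

/-- the weight is an average of weights -/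
theorem qq_avg (D c η a : ℝ) (hη : 0 < η) (hηD : 2 * η ≤ D) :
    qq D c a ≤ 2 * ∫ u, qq D c u * (η / ((a - u) ^ 2 + η ^ 2)) := by
  have hD : 0 < D := by linarith
  have hc1 : Continuous (fun u : ℝ => η / ((a - u) ^ 2 + η ^ 2)) := by
    refine Continuous.div (by fun_prop) (by fun_prop) fun u => (den_pos η a u hη).ne'
  have h1 : ∫ u, Set.indicator (Set.Icc (a - η) (a + η))
      (fun u => 1 / 2 * qq D c a * (η / ((a - u) ^ 2 + η ^ 2))) u =
      1 / 2 * qq D c a * (Real.pi / 2) := by
    rw [integral_indicator measurableSet_Icc, integral_Icc_eq_integral_Ioc,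
      ← intervalIntegral.integral_of_le (by linarith), intervalIntegral.integral_const_mul,
      cau_near η a η hη, div_self hη.ne', Real.arctan_one]
    ring
  have hb : ∀ᵐ u : ℝ, ‖qq D c u‖ ≤ 1 := Eventually.of_forall fun u => by
    rw [Real.norm_eq_abs, abs_of_nonneg (qq_pos D c u hD).le]
    exact qq_le D c u hD
  have h2 : ∫ u, Set.indicator (Set.Icc (a - η) (a + η))
      (fun u => 1 / 2 * qq D c a * (η / ((a - u) ^ 2 + η ^ 2))) u ≤
      ∫ u, qq D c u * (η / ((a - u) ^ 2 + η ^ 2)) := by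
    refine integral_mono (ind_int _ (continuous_const.mul hc1) _ _)
      ((pk_int η a hη).bdd_mul (qq_cont D c hD).aestronglyMeasurable hb) fun u => ?_
    simp only
    have hp := den_pos η a u hη
    by_cases hu : u ∈ Set.Icc (a - η) (a + η)
    · rw [Set.indicator_of_mem hu]
      refine mul_le_mul_of_nonneg_right ?_ (by positivity)
      unfold qq
      have hden : 0 < (a - c) ^ 2 + D ^ 2 := by positivity
      have hden' : 0 < (u - c) ^ 2 + D ^ 2 := by positivity
      have h3 : (u - c) ^ 2 + D ^ 2 ≤ 2 * ((a - c) ^ 2 + D ^ 2) := by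
        have h4 : (u - a) ^ 2 ≤ η ^ 2 := by
          rw [sq_le_sq, abs_of_pos hη]
          exact abs_le.2 ⟨by linarith [hu.1], by linarith [hu.2]⟩
        nlinarith [sq_nonneg ((a - c) - (u - a))]
      rw [one_div, ← div_eq_inv_mul, div_div, div_le_div_iff₀ (by positivity) hden']
      have : 0 ≤ D ^ 2 := by positivity
      nlinarith
    · rw [Set.indicator_of_notMem hu]
      have := (qq_pos D c u hD).le
      positivity
  rw [h1] at h2
  have h3 : (3 : ℝ) < Real.pi := Real.pi_gt_three
  have h4 := qq_pos D c a hD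
  nlinarith

/-- the weight, with the tail estimated -/
theorem qq_avg' (D c η w a A B : ℝ) (hη : 0 < η) (hηD : 2 * η ≤ D) (hw : 0 < w)
    (hA : A ≤ c - w) (hB : c + w ≤ B) :
    qq D c a ≤ 2 * (∫ u in Set.Icc A B, qq D c u * (η / ((a - u) ^ 2 + η ^ 2))) +
      2 * (Real.pi * (D ^ 2 / w ^ 2)) := by
  have hD : 0 < D := by linarith
  have h1 := qq_avg D c η a hη hηD
  have hb : ∀ᵐ u : ℝ, ‖qq D c u‖ ≤ 1 := Eventually.of_forall fun u => by
    rw [Real.norm_eq_abs, abs_of_nonneg (qq_pos D c u hD).le]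
    exact qq_le D c u hD
  have hi : Integrable fun u => qq D c u * (η / ((a - u) ^ 2 + η ^ 2)) :=
    (pk_int η a hη).bdd_mul (qq_cont D c hD).aestronglyMeasurable hb
  rw [← integral_add_compl (measurableSet_Icc (a := A) (b := B)) hi] at h1
  have h2 : ∫ u in (Set.Icc A B)ᶜ, qq D c u * (η / ((a - u) ^ 2 + η ^ 2)) ≤
      Real.pi * (D ^ 2 / w ^ 2) := by
    calc ∫ u in (Set.Icc A B)ᶜ, qq D c u * (η / ((a - u) ^ 2 + η ^ 2)) ≤
        ∫ u in (Set.Icc A B)ᶜ, D ^ 2 / w ^ 2 * (η / ((a - u) ^ 2 + η ^ 2)) := by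
          refine setIntegral_mono_on hi.integrableOn ((pk_int η a hη).const_mul _).integrableOn
            measurableSet_Icc.compl fun u hu => ?_
          have hp := den_pos η a u hη
          refine mul_le_mul_of_nonneg_right ?_ (by positivity)
          unfold qq
          have h3 : w ^ 2 ≤ (u - c) ^ 2 := by
            rw [sq_le_sq, abs_of_pos hw]
            by_contra hcon
            push Not at hcon
            have h4 := abs_lt.1 hcon
            exact hu ⟨by linarith [h4.1], by linarith [h4.2]⟩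
          have hw2 : 0 < w ^ 2 := by positivity
          refine div_le_div_of_nonneg_left (by positivity) hw2 ?_
          nlinarith [sq_nonneg D]
      _ ≤ ∫ u, D ^ 2 / w ^ 2 * (η / ((a - u) ^ 2 + η ^ 2)) := by
          refine setIntegral_le_integral ((pk_int η a hη).const_mul _)
            (Eventually.of_forall fun u => ?_)
          have hp := den_pos η a u hη
          simp only [Pi.zero_apply]
          positivity
      _ = _ := by
          rw [integral_const_mul, pk_val η a hη]
          ring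
  linarith

end Pool.Agent.Zk96.QE
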