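import Pool.Agent.Zk96.QE.Pas
import Pool.Agent.Zk96.QE.Loc1

/-! The passage to eigenfunctions in short energy windows. -/

set_option autoImplicit false
set_option linter.unusedSectionVars false

open scoped BigOperators Topology
open MeasureTheory Filter

namespace Pool.Agent.Zk96.QE

open Pool.Agent.W788.MFP.Four (T e NN e_comm e_add_left e_add e_zero e_neg e_neg_left
  e_normSq sum_e NN_pos card_T e_single)
open Pool.Agent.Zk11.QD (Hz HM HM_apply HM_det uu uu_eq uu_norm uu_meas uu_le PL e_norm na)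
open Pool.Agent.Zk60.LL.Cau Pool.Agent.Zk60.LL.Det Pool.Agent.Zk60.LL.Prob

variable {d L : ℕ} [NeZero L]

theorem Aj_comm (f g : T d L → ℂ) : Aj f g = Aj g f := by
  unfold Aj AA
  rw [sub_sum (fun p : T d L => mm p * ‖∑ x, e p x * (f x * (starRingEnd ℂ) (g x))‖ ^ 2),
    sub_sum (fun p : T d L => mm p * ‖∑ x, e p x * (g x * (starRingEnd ℂ) (f x))‖ ^ 2)]
  refine Finset.sum_nbij' (fun p => -p) (fun p => -p) ?_ ?_ ?_ ?_ ?_
  · intro p hp
    rw [Finset.mem_erase] at hp ⊢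
    exact ⟨neg_ne_zero.2 hp.1, Finset.mem_univ _⟩
  · intro p hp
    rw [Finset.mem_erase] at hp ⊢
    exact ⟨neg_ne_zero.2 hp.1, Finset.mem_univ _⟩
  · intro p _
    exact neg_neg p
  · intro p _
    exact neg_neg p
  · intro p _
    rw [mm_neg]
    congr 2
    rw [← RCLike.norm_conj, map_sum]
    congr 1
    refine Finset.sum_congr rfl fun x _ => ?_
    rw [map_mul, map_mul, Complex.conj_conj, ← e_neg_left]
    ring

/-- the lower bound with decaying errors -/
theorem FF_lower_loc {σ : ℝ} {V : T d L → ℝ} {ψ : T d L → T d L → ℂ} {E : T d L → ℝ}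
    (h : EB σ V ψ E) (φ : ℝ → ℝ) (hφc : Continuous φ) (A B η E1 E2 : ℝ) (hη : 0 < η)
    (hsupp : ∀ u, u ∉ Set.Icc A B → φ u = 0) (ρ : ℝ → ℝ) (hρ : ∀ a, 0 ≤ ρ a)
    (hw : ∀ a b, -(1 / 2 * ρ a + 1 / 2 * ρ b) ≤ ∫ u, φ u * (η * fc η a b u))
    (hd : ∀ a, E1 ≤ a → a ≤ E2 → Real.pi / 2 ≤ ∫ u, φ u * (η * fc η a a u)) :
    Real.pi / 2 * ∑ j ∈ Finset.univ.filter (fun j => E1 ≤ E j ∧ E j ≤ E2), Aj (ψ j) (ψ j) ≤
      FF φ A B η σ V + (2 + Real.log L) ^ d * ∑ j, ρ (E j) := by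
  classical
  have h1 : FF φ A B η σ V = ∑ j, ∑ k, Aj (ψ j) (ψ k) *
      ∫ u, φ u * (η * fc η (E j) (E k) u) := by
    unfold FF
    have h2 : ∀ u : ℝ, φ u * (η * SS KK ((u : ℂ) + η * Complex.I) σ V) =
        ∑ j, ∑ k, Aj (ψ j) (ψ k) * (φ u * (η * fc η (E j) (E k) u)) := by
      intro u
      rw [SS_eq h (fun p : {p : T d L // p ≠ 0} => p.1) (fun p => mm p.1) KK KK_eq η u hη,
        Finset.mul_sum, Finset.mul_sum]
      refine Finset.sum_congr rfl fun j _ => ?_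
      rw [Finset.mul_sum, Finset.mul_sum]
      refine Finset.sum_congr rfl fun k _ => ?_
      unfold Aj
      ring
    simp only [h2]
    have hi : ∀ j k : T d L, IntegrableOn
        (fun u => Aj (ψ j) (ψ k) * (φ u * (η * fc η (E j) (E k) u))) (Set.Icc A B) := by
      intro j k
      have hc : Continuous fun u => Aj (ψ j) (ψ k) * (φ u * (η * fc η (E j) (E k) u)) :=
        continuous_const.mul (hφc.mul (continuous_const.mul (fc_cont η _ _ hη)))
      exact hc.continuousOn.integrableOn_compact isCompact_Icc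
    rw [integral_finsetSum _ fun j _ => integrable_finsetSum _ fun k _ => hi j k]
    refine Finset.sum_congr rfl fun j _ => ?_
    rw [integral_finsetSum _ fun k _ => hi j k]
    refine Finset.sum_congr rfl fun k _ => ?_
    rw [integral_const_mul]
    congr 1
    refine setIntegral_eq_integral_of_forall_compl_eq_zero fun u hu => ?_
    rw [hsupp u hu, zero_mul]
  set J := Finset.univ.filter (fun j => E1 ≤ E j ∧ E j ≤ E2) with hJ
  have h3 : ∀ j k : T d L, Aj (ψ j) (ψ k) * (if j = k ∧ j ∈ J then Real.pi / 2 else 0) -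
      (1 / 2 * (Aj (ψ j) (ψ k) * ρ (E j)) + 1 / 2 * (Aj (ψ k) (ψ j) * ρ (E k))) ≤
      Aj (ψ j) (ψ k) * ∫ u, φ u * (η * fc η (E j) (E k) u) := by
    intro j k
    have hA := Aj_nonneg (ψ j) (ψ k)
    rw [Aj_comm (ψ k) (ψ j)]
    by_cases hc : j = k ∧ j ∈ J
    · rw [if_pos hc]
      obtain ⟨rfl, hjJ⟩ := hc
      have h4 := (Finset.mem_filter.1 hjJ).2
      have h5 := mul_le_mul_of_nonneg_left (hd (E j) h4.1 h4.2) hA
      have : 0 ≤ Aj (ψ j) (ψ j) * ρ (E j) := mul_nonneg hA (hρ _)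
      linarith
    · rw [if_neg hc, mul_zero]
      have h5 := mul_le_mul_of_nonneg_left (hw (E j) (E k)) hA
      linarith
  have h4 : ∑ j, ∑ k, (Aj (ψ j) (ψ k) * (if j = k ∧ j ∈ J then Real.pi / 2 else 0) -
      (1 / 2 * (Aj (ψ j) (ψ k) * ρ (E j)) + 1 / 2 * (Aj (ψ k) (ψ j) * ρ (E k)))) ≤
      FF φ A B η σ V := by
    rw [h1]
    exact Finset.sum_le_sum fun j _ => Finset.sum_le_sum fun k _ => h3 j k
  have h5 : ∑ j, ∑ k, (Aj (ψ j) (ψ k) * (if j = k ∧ j ∈ J then Real.pi / 2 else 0) -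
      (1 / 2 * (Aj (ψ j) (ψ k) * ρ (E j)) + 1 / 2 * (Aj (ψ k) (ψ j) * ρ (E k)))) =
      Real.pi / 2 * ∑ j ∈ J, Aj (ψ j) (ψ j) -
      ∑ j, ρ (E j) * ∑ k, Aj (ψ j) (ψ k) := by
    simp only [Finset.sum_sub_distrib]
    congr 1
    · rw [Finset.mul_sum, ← Finset.sum_filter_add_sum_filter_not Finset.univ (fun j => j ∈ J)]
      have e1 : ∑ j ∈ Finset.univ.filter (fun j => ¬ j ∈ J), ∑ k, Aj (ψ j) (ψ k) *
          (if j = k ∧ j ∈ J then Real.pi / 2 else 0) = 0 := by
        refine Finset.sum_eq_zero fun j hj => Finset.sum_eq_zero fun k _ => ?_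
        rw [if_neg (fun hc => (Finset.mem_filter.1 hj).2 hc.2), mul_zero]
      rw [e1, add_zero]
      have e2 : Finset.univ.filter (fun j => j ∈ J) = J := by
        ext j
        simp
      rw [e2]
      refine Finset.sum_congr rfl fun j hj => ?_
      rw [Finset.sum_eq_single j]
      · rw [if_pos ⟨rfl, hj⟩]
        ring
      · intro k _ hk
        rw [if_neg (fun hc => hk hc.1.symm), mul_zero]
      · intro hc
        exact absurd (Finset.mem_univ j) hc
    · have e1 : ∑ j, ∑ k, (1 / 2 * (Aj (ψ j) (ψ k) * ρ (E j)) +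
          1 / 2 * (Aj (ψ k) (ψ j) * ρ (E k))) = 1 / 2 * (∑ j, ∑ k, Aj (ψ j) (ψ k) * ρ (E j)) +
          1 / 2 * ∑ j, ∑ k, Aj (ψ k) (ψ j) * ρ (E k) := by
        simp only [Finset.sum_add_distrib, Finset.mul_sum]
      have e2 : ∑ j, ∑ k, Aj (ψ k) (ψ j) * ρ (E k) = ∑ j, ∑ k, Aj (ψ j) (ψ k) * ρ (E j) :=
        Finset.sum_comm
      have e3 : ∑ j, ∑ k, Aj (ψ j) (ψ k) * ρ (E j) = ∑ j, ρ (E j) * ∑ k, Aj (ψ j) (ψ k) := by
        refine Finset.sum_congr rfl fun j _ => ?_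
        rw [Finset.mul_sum]
        exact Finset.sum_congr rfl fun k _ => mul_comm _ _
      rw [e1, e2, e3]
      ring
  have h6 : ∑ j, ρ (E j) * ∑ k, Aj (ψ j) (ψ k) ≤ (2 + Real.log L) ^ d * ∑ j, ρ (E j) := by
    rw [Finset.mul_sum]
    refine Finset.sum_le_sum fun j _ => ?_
    rw [mul_comm ((2 + Real.log L) ^ d)]
    exact mul_le_mul_of_nonneg_left (Aj_sum h j) (hρ _)
  rw [h5] at h4
  linarith

/-- the weighted counting of the eigenvalues -/
noncomputable def TT (D c A B η σ : ℝ) (V : T d L → ℝ) : ℝ :=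
  ∫ u in Set.Icc A B, qq D c u * (η * SS (fun _ => 1) ((u : ℂ) + η * Complex.I) σ V)

theorem TT_lower {σ : ℝ} {V : T d L → ℝ} {ψ : T d L → T d L → ℂ} {E : T d L → ℝ}
    (h : EB σ V ψ E) (D c η w A B : ℝ) (hη : 0 < η) (hηD : 2 * η ≤ D) (hw : 0 < w)
    (hA : A ≤ c - w) (hB : c + w ≤ B) :
    ∑ j, qq D c (E j) ≤ 2 * TT D c A B η σ V +
      2 * (Real.pi * (D ^ 2 / w ^ 2)) * (Fintype.card (T d L) : ℝ) := by
  have hD : 0 < D := by linarith
  have h1 : TT D c A B η σ V = ∑ j, ∫ u in Set.Icc A B, qq D c u *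
      (η / ((E j - u) ^ 2 + η ^ 2)) := by
    unfold TT
    rw [← integral_finsetSum]
    · refine integral_congr_ae (Eventually.of_forall fun u => ?_)
      simp only
      rw [SS_one h η u hη, Finset.mul_sum, Finset.mul_sum]
      refine Finset.sum_congr rfl fun j _ => ?_
      rw [fc_self η (E j) u hη]
      ring
    · intro j _
      have hc : Continuous fun u => qq D c u * (η / ((E j - u) ^ 2 + η ^ 2)) := by
        refine (qq_cont D c hD).mul ?_
        refine Continuous.div (by fun_prop) (by fun_prop) fun u => (den_pos η (E j) u hη).ne'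
      exact hc.continuousOn.integrableOn_compact isCompact_Icc
  rw [h1]
  refine (Finset.sum_le_sum fun j _ => qq_avg' D c η w (E j) A B hη hηD hw hA hB).trans
    (le_of_eq ?_)
  rw [Finset.sum_add_distrib, Finset.sum_const, Finset.card_univ, nsmul_eq_mul, Finset.mul_sum]
  ring

theorem TT_meas (D c A B η σ : ℝ) (hD : 0 < D) (hη : 0 < η) :
    Measurable (TT (d := d) (L := L) D c A B η σ) := by
  have h1 := (SS_cont (d := d) (L := L) (qq D c) (qq_cont D c hD) (fun _ => 1) η hη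
    σ).stronglyMeasurable
  have h2 : StronglyMeasurable fun V : T d L → ℝ => ∫ u in Set.Icc A B,
      qq D c u * (η * SS (fun _ => 1) ((u : ℂ) + η * Complex.I) σ V) :=
    StronglyMeasurable.integral_prod_left (μ := volume.restrict (Set.Icc A B))
      (f := fun (u : ℝ) (V : T d L → ℝ) =>
        qq D c u * (η * SS (fun _ => 1) ((u : ℂ) + η * Complex.I) σ V)) h1
  exact h2.measurable

/-- the mean of the weighted counting -/
theorem TT_avg (μ : Measure ℝ) [IsProbabilityMeasure μ] (D c A B η σ b : ℝ) (hD : 0 < D)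
    (hη : 0 < η) (hb : 0 ≤ b)
    (h0 : ∀ u : ℝ, A ≤ u → u ≤ B →
      η * ∑ x : T d L, ∫ V, ‖uu ((u : ℂ) + η * Complex.I) σ V x‖ ^ 2 ∂(PL (T d L) μ) ≤ b) :
    Integrable (TT (d := d) (L := L) D c A B η σ) (PL (T d L) μ) ∧
    ∫ V, TT D c A B η σ V ∂(PL (T d L) μ) ≤
      (Fintype.card (T d L) : ℝ) * b * (Real.pi * D) := by
  set Cst : ℝ := η * ∑ x : T d L, ∑ y : T d L, |(1 : ℝ)| * (1 / η ^ 2) with hCst
  have hint : Integrable (fun p : ℝ × (T d L → ℝ) =>
      qq D c p.1 * (η * SS (fun _ => 1) ((p.1 : ℂ) + η * Complex.I) σ p.2))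
      ((volume.restrict (Set.Icc A B)).prod (PL (T d L) μ)) := by
    refine Integrable.mono' (integrable_const Cst)
      (SS_cont (qq D c) (qq_cont D c hD) (fun _ => 1) η hη σ).aestronglyMeasurable
      (Eventually.of_forall fun p => ?_)
    rw [Real.norm_eq_abs, abs_mul, abs_mul, abs_of_nonneg (qq_pos D c p.1 hD).le, abs_of_pos hη]
    have h1 := SS_abs (fun _ : T d L => 1) η hη σ p.1 p.2
    have h2 : 0 ≤ η * |SS (fun _ => 1) ((p.1 : ℂ) + η * Complex.I) σ p.2| := by positivity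
    calc qq D c p.1 * (η * |SS (fun _ => 1) ((p.1 : ℂ) + η * Complex.I) σ p.2|) ≤
        1 * (η * |SS (fun _ => 1) ((p.1 : ℂ) + η * Complex.I) σ p.2|) :=
          mul_le_mul_of_nonneg_right (qq_le D c _ hD) h2
      _ ≤ Cst := by
          rw [one_mul, hCst]
          exact mul_le_mul_of_nonneg_left h1 hη.le
  have h1 : Integrable (TT (d := d) (L := L) D c A B η σ) (PL (T d L) μ) :=
    hint.integral_prod_right
  refine ⟨h1, ?_⟩
  have h2 := integral_integral_swap (f := fun (u : ℝ) (V : T d L → ℝ) =>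
    qq D c u * (η * SS (fun _ => 1) ((u : ℂ) + η * Complex.I) σ V))
    (μ := volume.restrict (Set.Icc A B)) (ν := PL (T d L) μ) hint
  have hu : ∀ u : ℝ, ∫ V, qq D c u * (η * SS (fun _ => 1) ((u : ℂ) + η * Complex.I) σ V)
      ∂(PL (T d L) μ) = (Fintype.card (T d L) : ℝ) * (qq D c u * (η *
      ∑ x : T d L, ∫ V, ‖uu ((u : ℂ) + η * Complex.I) σ V x‖ ^ 2 ∂(PL (T d L) μ))) := by
    intro u
    rw [integral_const_mul, integral_const_mul, avg_SS μ (fun _ => 1) η hη σ u]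
    simp only [one_mul]
    ring
  have h3 : ∫ V, TT D c A B η σ V ∂(PL (T d L) μ) = ∫ u in Set.Icc A B,
      (Fintype.card (T d L) : ℝ) * (qq D c u * (η *
      ∑ x : T d L, ∫ V, ‖uu ((u : ℂ) + η * Complex.I) σ V x‖ ^ 2 ∂(PL (T d L) μ))) := by
    unfold TT
    rw [← h2]
    exact integral_congr_ae (Eventually.of_forall fun u => hu u)
  rw [h3]
  have hN : (0 : ℝ) ≤ (Fintype.card (T d L) : ℝ) := by positivity
  have h5 : IntegrableOn (fun u : ℝ => (Fintype.card (T d L) : ℝ) * (qq D c u * (η *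
      ∑ x : T d L, ∫ V, ‖uu ((u : ℂ) + η * Complex.I) σ V x‖ ^ 2 ∂(PL (T d L) μ))))
      (Set.Icc A B) := by
    have h6 := hint.integral_prod_left
    exact h6.congr (Eventually.of_forall fun u => hu u)
  calc ∫ u in Set.Icc A B, (Fintype.card (T d L) : ℝ) * (qq D c u * (η *
      ∑ x : T d L, ∫ V, ‖uu ((u : ℂ) + η * Complex.I) σ V x‖ ^ 2 ∂(PL (T d L) μ))) ≤
      ∫ u in Set.Icc A B, (Fintype.card (T d L) : ℝ) * b * qq D c u := by
        refine setIntegral_mono_on h5 ((qq_int D c hD).const_mul _).integrableOn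
          measurableSet_Icc fun u hu => ?_
        have h6 := mul_le_mul_of_nonneg_left (h0 u hu.1 hu.2) (qq_pos D c u hD).le
        have h7 := mul_le_mul_of_nonneg_left h6 hN
        linarith
    _ ≤ ∫ u, (Fintype.card (T d L) : ℝ) * b * qq D c u := by
        refine setIntegral_le_integral ((qq_int D c hD).const_mul _)
          (Eventually.of_forall fun u => ?_)
        have := (qq_pos D c u hD).le
        simp only [Pi.zero_apply]
        positivity
    _ = _ := by rw [integral_const_mul, qq_val D c hD]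

/-- **passage from averages to eigenfunctions in a short energy window** -/
theorem passage_loc (μ : Measure ℝ) [IsProbabilityMeasure μ] (s1 s2 w0 b η σ ε t r : ℝ)
    (hw0 : 0 < w0) (hη : 0 < η) (hηD : 2 * η ≤ s2 - s1) (hb : 0 ≤ b)
    (hε : 0 ≤ ε) (ht : 0 < t) (hr : 0 < r)
    (h0 : ∀ u : ℝ, s1 - w0 ≤ u → u ≤ s2 + w0 →
      η * ∑ x : T d L, ∫ V, ‖uu ((u : ℂ) + η * Complex.I) σ V x‖ ^ 2 ∂(PL (T d L) μ) ≤ b)
    (hmain : ∀ u : ℝ, s1 - (s2 - s1) ≤ u → u ≤ s2 + (s2 - s1) → ∀ p : T d L, p ≠ 0 →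
      ‖(η : ℂ) * ∑ x, e p x *
      ((∫ V, ‖uu ((u : ℂ) + η * Complex.I) σ V x‖ ^ 2 ∂(PL (T d L) μ) : ℝ) : ℂ)‖ ≤ ε) :
    ∃ Bad : Set (T d L → ℝ), MeasurableSet Bad ∧ (PL (T d L) μ).real Bad ≤
        (2 + Real.log L) ^ (2 * d) * (3 * ε + 1640 * (b + (s2 - s1) / w0 ^ 2) *
          (η / (s2 - s1) * (1 + Real.log ((s2 - s1) / η)))) / (t ^ 2 * r) ∧
      ∀ V, V ∉ Bad → ∀ (ψ : T d L → T d L → ℂ) (E : T d L → ℝ), EB σ V ψ E →
        ∀ S : Finset (T d L), (∀ j ∈ S, (s1 ≤ E j ∧ E j ≤ s2) ∧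
          ∃ (y : T d L) (ℓ : Fin d → ℕ), (∀ i, ℓ i ≤ L) ∧
            t < |∑ x ∈ bx y ℓ, ‖ψ j x‖ ^ 2 - ∏ i, ((ℓ i : ℝ) / L)|) →
        (S.card : ℝ) ≤ r * (s2 - s1) * (Fintype.card (T d L) : ℝ) := by
  classical
  set D : ℝ := s2 - s1 with hDdef
  have hD : 0 < D := by linarith
  set c : ℝ := (s1 + s2) / 2 with hc
  have hlog : 0 ≤ Real.log L := Real.log_natCast_nonneg L
  have hlogM : 0 ≤ Real.log (D / η) := by
    apply Real.log_nonneg
    rw [le_div_iff₀ hη]
    linarith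
  set Λ : ℝ := (2 + Real.log L) ^ d with hΛ
  have hΛ1 : 1 ≤ Λ := one_le_pow₀ (by linarith)
  set N : ℝ := (Fintype.card (T d L) : ℝ) with hN
  have hN0 : 0 < N := by
    rw [hN]
    exact_mod_cast Fintype.card_pos
  set A : ℝ := s1 - D with hA
  set B : ℝ := s2 + D with hB
  set s : ℝ := 2 / D with hs
  have hs0 : 0 ≤ s := by positivity
  set φ : ℝ → ℝ := tp A B s with hφ
  have hφc : Continuous φ := tp_cont A B s
  have hφ0 : ∀ u, 0 ≤ φ u := tp_nonneg A B s
  have hφ1 : ∀ u, φ u ≤ 1 := tp_le A B s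
  have hφL : ∀ u v, |φ u - φ v| ≤ 2 / D * |u - v| := tp_lip A B s hs0
  have hsupp0 : ∀ u, u ∉ Set.Icc A B → φ u = 0 := tp_out A B s hs0
  have hsupp : ∀ u, 3 / 2 * D < |u - c| → φ u = 0 := by
    intro u hu
    apply hsupp0
    intro hcon
    have h1 := hcon.1
    have h2 := hcon.2
    have h3 : |u - c| ≤ 3 / 2 * D := by
      rw [abs_le]
      constructor
      · rw [hc]
        linarith
      · rw [hc]
        linarith
    linarith
  set κ : ℝ := 260 * (η / D * (1 + Real.log (D / η))) with hκ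
  have hκ0 : 0 ≤ κ := by positivity
  have hwin : ∀ a b, -(1 / 2 * (κ * qq D c a) + 1 / 2 * (κ * qq D c b)) ≤
      ∫ u, φ u * (η * fc η a b u) := fun a b =>
    window_loc φ c D hD hφc hφ0 hφ1 hφL hsupp η hη (by linarith) a b
  have hdia : ∀ a, s1 ≤ a → a ≤ s2 → Real.pi / 2 ≤ ∫ u, φ u * (η * fc η a a u) := by
    intro a ha1 ha2
    refine window_diag φ hφc hφ0 hφ1 η a hη fun u hu => ?_
    have h1 := abs_le.1 hu
    refine tp_in A B s u ?_ ?_
    · rw [hs, ← mul_div_assoc, le_div_iff₀ hD]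
      linarith [h1.1]
    · rw [hs, ← mul_div_assoc, le_div_iff₀ hD]
      linarith [h1.2]
  set P : ℝ := 2 * (Real.pi * (D ^ 2 / w0 ^ 2)) * N with hP
  have hlow : ∀ (V : T d L → ℝ) (ψ : T d L → T d L → ℂ) (E : T d L → ℝ), EB σ V ψ E →
      Real.pi / 2 * ∑ j ∈ Finset.univ.filter (fun j => s1 ≤ E j ∧ E j ≤ s2), Aj (ψ j) (ψ j) ≤
      FF φ A B η σ V + Λ * κ * (2 * TT D c (s1 - w0) (s2 + w0) η σ V + P) := by
    intro V ψ E h
    have h1 := FF_lower_loc h φ hφc A B η s1 s2 hη hsupp0 (fun a => κ * qq D c a)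
      (fun a => mul_nonneg hκ0 (qq_pos D c a hD).le) hwin hdia
    have h2 := TT_lower h D c η w0 (s1 - w0) (s2 + w0) hη hηD hw0 (by rw [hc]; linarith)
      (by rw [hc]; linarith)
    refine h1.trans ?_
    rw [← Finset.mul_sum]
    have h3 : Λ * (κ * ∑ j, qq D c (E j)) ≤
        Λ * (κ * (2 * TT D c (s1 - w0) (s2 + w0) η σ V + P)) :=
      mul_le_mul_of_nonneg_left (mul_le_mul_of_nonneg_left h2 hκ0) (by positivity)
    linarith
  have hAB : A ≤ B := by rw [hA, hB]; linarith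
  obtain ⟨hint, havg⟩ := FF_avg (d := d) (L := L) μ φ hφc hφ0 hφ1 A B η σ ε hAB hη hε
    (fun u h1 h2 p hp => hmain u h1 h2 p hp)
  obtain ⟨tint, tavg⟩ := TT_avg (d := d) (L := L) μ D c (s1 - w0) (s2 + w0) η σ b hD hη hb h0
  set G : (T d L → ℝ) → ℝ := fun V => FF φ A B η σ V +
    Λ * κ * (2 * TT D c (s1 - w0) (s2 + w0) η σ V + P) with hG
  have hG0 : ∀ V, 0 ≤ G V := by
    intro V
    obtain ⟨ψ, E, h⟩ := exists_EB σ V
    refine le_trans ?_ (hlow V ψ E h)
    exact mul_nonneg (by positivity) (Finset.sum_nonneg fun j _ => Aj_nonneg _ _)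
  have hGi : Integrable G (PL (T d L) μ) :=
    hint.add (((tint.const_mul 2).add (integrable_const _)).const_mul _)
  have hpi : Real.pi < 3.15 := Real.pi_lt_d2
  have hpi0 : 0 < Real.pi := Real.pi_pos
  have hGavg : ∫ V, G V ∂(PL (T d L) μ) ≤ N * Λ * D * (3 * ε + 1640 * (b + D / w0 ^ 2) *
          (η / D * (1 + Real.log (D / η)))) := by
    have i2 : Integrable (fun V : T d L → ℝ => 2 * TT D c (s1 - w0) (s2 + w0) η σ V + P)
        (PL (T d L) μ) := (tint.const_mul 2).add (integrable_const _)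
    have i3 : Integrable (fun V : T d L → ℝ => Λ * κ *
        (2 * TT D c (s1 - w0) (s2 + w0) η σ V + P)) (PL (T d L) μ) := i2.const_mul _
    have e1 : ∫ V, G V ∂(PL (T d L) μ) = ∫ V, FF φ A B η σ V ∂(PL (T d L) μ) +
        Λ * κ * (2 * ∫ V, TT D c (s1 - w0) (s2 + w0) η σ V ∂(PL (T d L) μ) + P) := by
      rw [hG, integral_add hint i3, integral_const_mul,
        integral_add (tint.const_mul 2) (integrable_const _),
        integral_const_mul, integral_const, probReal_univ, one_smul]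
    rw [e1]
    have h1 : N * Λ * (ε * (B - A)) = N * Λ * D * (3 * ε) := by
      rw [hA, hB]
      have : s2 + D - (s1 - D) = 3 * D := by rw [hDdef]; ring
      rw [this]
      ring
    have h2 : 2 * (N * b * (Real.pi * D)) + P = 2 * Real.pi * (N * D * (b + D / w0 ^ 2)) := by
      rw [hP]
      ring
    have h3 : 2 * ∫ V, TT D c (s1 - w0) (s2 + w0) η σ V ∂(PL (T d L) μ) + P ≤
        2 * (N * b * (Real.pi * D)) + P := by linarith
    rw [h2] at h3
    have h4 : Λ * κ * (2 * ∫ V, TT D c (s1 - w0) (s2 + w0) η σ V ∂(PL (T d L) μ) + P) ≤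
        Λ * κ * (2 * Real.pi * (N * D * (b + D / w0 ^ 2))) :=
      mul_le_mul_of_nonneg_left h3 (by positivity)
    have h5 : Λ * κ * (2 * Real.pi * (N * D * (b + D / w0 ^ 2))) =
        (520 * Real.pi) * (N * Λ * D * ((b + D / w0 ^ 2) *
          (η / D * (1 + Real.log (D / η))))) := by
      rw [hκ]
      ring
    have h6 : 0 ≤ N * Λ * D * ((b + D / w0 ^ 2) * (η / D * (1 + Real.log (D / η)))) := by
      positivity
    have h7 : (520 * Real.pi) * (N * Λ * D * ((b + D / w0 ^ 2) *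
          (η / D * (1 + Real.log (D / η))))) ≤ 1640 * (N * Λ * D * ((b + D / w0 ^ 2) *
          (η / D * (1 + Real.log (D / η))))) :=
      mul_le_mul_of_nonneg_right (by linarith) h6
    have h8 := havg
    rw [h1] at h8
    nlinarith
  set X : ℝ := 3 * ε + 1640 * (b + D / w0 ^ 2) * (η / D * (1 + Real.log (D / η))) with hX
  set a : ℝ := r * t ^ 2 / Λ with ha
  have ha0 : 0 < a := by positivity
  refine ⟨{V | a * N * D ≤ G V}, ?_, ?_, ?_⟩
  · refine measurableSet_le measurable_const ?_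
    exact (FF_meas φ hφc A B η σ hη).add
      ((((TT_meas D c (s1 - w0) (s2 + w0) η σ hD hη).const_mul 2).add_const _).const_mul _)
  · have h1 := mul_meas_ge_le_integral_of_nonneg (μ := PL (T d L) μ)
      (Eventually.of_forall hG0) hGi (a * N * D)
    have h2 := h1.trans hGavg
    have h3 : (PL (T d L) μ).real {V | a * N * D ≤ G V} ≤ Λ * X / a := by
      rw [le_div_iff₀ ha0]
      have h4 : (N * D) * ((PL (T d L) μ).real {V | a * N * D ≤ G V} * a) ≤
          (N * D) * (Λ * X) := by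
        calc (N * D) * ((PL (T d L) μ).real {V | a * N * D ≤ G V} * a) =
            a * N * D * (PL (T d L) μ).real {V | a * N * D ≤ G V} := by ring
          _ ≤ _ := h2
          _ = _ := by ring
      exact le_of_mul_le_mul_left h4 (by positivity)
    refine h3.trans (le_of_eq ?_)
    have h6 : (2 + Real.log L) ^ (2 * d) = Λ ^ 2 := by
      rw [hΛ, ← pow_mul, mul_comm]
    rw [h6, ha]
    field_simp
  · intro V hV ψ E h S hS
    have hV' : G V < a * N * D := by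
      by_contra hc
      push Not at hc
      exact hV hc
    have h1 := hlow V ψ E h
    have h2 : ∀ j ∈ S, t ^ 2 ≤ Λ * Aj (ψ j) (ψ j) := by
      intro j hj
      obtain ⟨-, y, ℓ, hℓ, hbox⟩ := hS j hj
      have h3 := box_bound (fun x => ‖ψ j x‖ ^ 2) (EB_norm h j) y ℓ hℓ
      rw [← Aj_diag] at h3
      refine le_trans ?_ h3
      rw [← sq_abs (∑ x ∈ bx y ℓ, ‖ψ j x‖ ^ 2 - ∏ i, ((ℓ i : ℝ) / L))]
      exact pow_le_pow_left₀ ht.le hbox.le 2
    have h3 : (S.card : ℝ) * t ^ 2 ≤ Λ * ∑ j ∈ S, Aj (ψ j) (ψ j) := by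
      rw [← nsmul_eq_mul, ← Finset.sum_const, Finset.mul_sum]
      exact Finset.sum_le_sum h2
    have h4 : ∑ j ∈ S, Aj (ψ j) (ψ j) ≤
        ∑ j ∈ Finset.univ.filter (fun j => s1 ≤ E j ∧ E j ≤ s2), Aj (ψ j) (ψ j) := by
      refine Finset.sum_le_sum_of_subset_of_nonneg ?_ (fun j _ _ => Aj_nonneg _ _)
      intro j hj
      exact Finset.mem_filter.2 ⟨Finset.mem_univ _, (hS j hj).1⟩
    have h5 : ∑ j ∈ Finset.univ.filter (fun j => s1 ≤ E j ∧ E j ≤ s2), Aj (ψ j) (ψ j) ≤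
        a * N * D := by
      have hp : (1 : ℝ) ≤ Real.pi / 2 := by
        have := Real.pi_gt_three
        linarith
      have h6 : 0 ≤ ∑ j ∈ Finset.univ.filter (fun j => s1 ≤ E j ∧ E j ≤ s2), Aj (ψ j) (ψ j) :=
        Finset.sum_nonneg fun j _ => Aj_nonneg _ _
      have h7 : G V = FF φ A B η σ V +
        Λ * κ * (2 * TT D c (s1 - w0) (s2 + w0) η σ V + P) := rfl
      nlinarith
    have h6 : (S.card : ℝ) * t ^ 2 ≤ Λ * (a * N * D) :=
      h3.trans (mul_le_mul_of_nonneg_left (h4.trans h5) (by positivity))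
    have h7 : Λ * (a * N * D) = r * D * N * t ^ 2 := by
      rw [ha]
      field_simp
    rw [h7] at h6
    exact le_of_mul_le_mul_right h6 (by positivity)

end Pool.Agent.Zk96.QE
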