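import Pool.Agent.Zk11.QD.Nbd

/-! Mass in boxes of the torus and small Fourier coefficients. -/

set_option autoImplicit false
set_option linter.unusedSectionVars false

open scoped BigOperators Topology
open MeasureTheory Filter

namespace Pool.Agent.Zk96.QE

open Pool.Agent.W788.MFP.Four (T e NN adj adj_neg e_comm e_add_left e_add e_zero e_neg e_neg_left
  e_normSq sum_e NN_pos card_T e_single)
open Pool.Agent.Zk11.QD

variable {d L : ℕ} [NeZero L]

/-- the one dimensional majorant -/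
noncomputable def m1 (q : ZMod L) : ℝ := if q = 0 then 1 else 1 / (2 * (na q : ℝ))

/-- the majorant -/
noncomputable def mm (p : T d L) : ℝ := ∏ i, m1 (p i)

/-- boxes -/
def bx (y : T d L) (ℓ : Fin d → ℕ) : Finset (T d L) :=
  Finset.univ.filter fun x => ∀ i, (x i - y i).val < ℓ i

theorem m1_nonneg (q : ZMod L) : 0 ≤ m1 q := by
  unfold m1
  split_ifs
  · norm_num
  · positivity

theorem mm_nonneg (p : T d L) : 0 ≤ mm p := Finset.prod_nonneg fun _ _ => m1_nonneg _

theorem m1_sum : ∑ q : ZMod L, m1 q ≤ 2 + Real.log L := by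
  classical
  have hL1 : 1 ≤ L := Nat.one_le_iff_ne_zero.2 (NeZero.ne L)
  have hfib : ∑ q : ZMod L, m1 q = ∑ n ∈ Finset.range (L / 2 + 1),
      ∑ q ∈ Finset.univ.filter (fun q : ZMod L => na q = n), m1 q := by
    rw [Finset.sum_fiberwise_of_maps_to]
    intro q _
    rw [Finset.mem_range]
    have := ZMod.natAbs_valMinAbs_le q
    unfold na
    omega
  rw [hfib, Finset.sum_range_succ']
  have h0 : ∑ q ∈ Finset.univ.filter (fun q : ZMod L => na q = 0), m1 q = 1 := by
    have : Finset.univ.filter (fun q : ZMod L => na q = 0) = {0} := by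
      ext q
      simp [na_zero_iff]
    rw [this, Finset.sum_singleton]
    unfold m1
    simp
  rw [h0]
  have h1 : ∀ n ∈ Finset.range (L / 2),
      ∑ q ∈ Finset.univ.filter (fun q : ZMod L => na q = n + 1), m1 q ≤ ((n + 1 : ℕ) : ℝ)⁻¹ := by
    intro n _
    have h2 : ∀ q ∈ Finset.univ.filter (fun q : ZMod L => na q = n + 1),
        m1 q = 1 / (2 * ((n + 1 : ℕ) : ℝ)) := by
      intro q hq
      have hq2 := (Finset.mem_filter.1 hq).2
      unfold m1
      rw [if_neg, hq2]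
      intro h3
      rw [(na_zero_iff q).2 h3] at hq2
      omega
    rw [Finset.sum_congr rfl h2, Finset.sum_const, nsmul_eq_mul]
    have h3 : ((Finset.univ.filter (fun q : ZMod L => na q = n + 1)).card : ℝ) ≤ 2 := by
      exact_mod_cast na_fiber (L := L) (n + 1)
    calc ((Finset.univ.filter (fun q : ZMod L => na q = n + 1)).card : ℝ) *
        (1 / (2 * ((n + 1 : ℕ) : ℝ))) ≤ 2 * (1 / (2 * ((n + 1 : ℕ) : ℝ))) :=
          mul_le_mul_of_nonneg_right h3 (by positivity)
      _ = _ := by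
          have : ((n + 1 : ℕ) : ℝ) ≠ 0 := by positivity
          field_simp
  have h2 := Finset.sum_le_sum h1
  have h3 : ∑ n ∈ Finset.range (L / 2), ((n + 1 : ℕ) : ℝ)⁻¹ = (harmonic (L / 2) : ℝ) := by
    unfold harmonic
    push_cast
    rfl
  have h4 : (harmonic (L / 2) : ℝ) ≤ 1 + Real.log L := by
    by_cases hz : L / 2 = 0
    · rw [hz]
      simp only [harmonic_zero, Rat.cast_zero]
      have := Real.log_nonneg (x := (L : ℝ)) (by exact_mod_cast hL1)
      linarith
    · refine (harmonic_le_one_add_log (L / 2)).trans ?_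
      have h5 : Real.log ((L / 2 : ℕ) : ℝ) ≤ Real.log L := by
        apply Real.log_le_log
        · exact_mod_cast Nat.pos_of_ne_zero hz
        · exact_mod_cast Nat.div_le_self L 2
      linarith
  rw [h3] at h2
  linarith

theorem mm_sum : ∑ p : T d L, mm p ≤ (2 + Real.log L) ^ d := by
  classical
  have h1 : ∑ p : T d L, mm p = ∏ _i : Fin d, ∑ q : ZMod L, m1 q := by
    rw [Finset.prod_univ_sum, Fintype.piFinset_univ]
    rfl
  rw [h1, Finset.prod_const, Finset.card_univ, Fintype.card_fin]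
  exact pow_le_pow_left₀ (Finset.sum_nonneg fun _ _ => m1_nonneg _) m1_sum d

/-- Fourier coefficients of intervals -/
noncomputable def gh (l : ℕ) (q : ZMod L) : ℂ :=
  (L : ℂ)⁻¹ * ∑ j ∈ Finset.range l, (ZMod.stdAddChar (-(q * (j : ZMod L))) : ℂ)

theorem gh_zero (l : ℕ) : gh (L := L) l 0 = (((l : ℝ) / L : ℝ) : ℂ) := by
  unfold gh
  simp
  ring

theorem Lpos' : (0 : ℝ) < L := by exact_mod_cast Nat.pos_of_ne_zero (NeZero.ne L)

theorem ch_norm (q : ZMod L) : ‖(ZMod.stdAddChar q : ℂ)‖ = 1 := by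
  rw [ZMod.stdAddChar_apply]
  exact Circle.norm_coe _

theorem gh_le (l : ℕ) (hl : l ≤ L) (q : ZMod L) : ‖gh l q‖ ≤ m1 q := by
  have hL := Lpos' (L := L)
  by_cases hq : q = 0
  · subst hq
    rw [gh_zero, Complex.norm_real, Real.norm_eq_abs, abs_of_nonneg (by positivity)]
    unfold m1
    rw [if_pos rfl, div_le_one hL]
    exact_mod_cast hl
  · unfold m1
    rw [if_neg hq]
    set r : ℂ := (ZMod.stdAddChar (-q) : ℂ) with hr
    have h1 : ∀ j : ℕ, (ZMod.stdAddChar (-(q * (j : ZMod L))) : ℂ) = r ^ j := by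
      intro j
      rw [hr, ← AddChar.map_nsmul_eq_pow]
      congr 1
      rw [nsmul_eq_mul]
      ring
    have hna : 0 < na q := Nat.pos_of_ne_zero fun h => hq ((na_zero_iff q).1 h)
    have hnaR : (0 : ℝ) < na q := by exact_mod_cast hna
    have hch : 4 * (na q : ℝ) / L ≤ ‖r - 1‖ := by
      have h2 := chord (-q)
      have h3 : (-q).valMinAbs.natAbs = na q := ZMod.natAbs_valMinAbs_neg q
      rw [h3] at h2
      exact h2
    have hr1 : r ≠ 1 := by
      intro h
      rw [h, sub_self, norm_zero] at hch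
      have : 0 < 4 * (na q : ℝ) / L := by positivity
      linarith
    unfold gh
    simp only [h1]
    rw [geom_sum_eq hr1, norm_mul, norm_inv, Complex.norm_natCast, norm_div]
    have h4 : ‖r ^ l - 1‖ ≤ 2 := by
      refine (norm_sub_le _ _).trans ?_
      rw [norm_pow, hr, ch_norm, one_pow, norm_one]
      norm_num
    have h5 : ‖r ^ l - 1‖ / ‖r - 1‖ ≤ 2 / (4 * (na q : ℝ) / L) :=
      div_le_div₀ (by norm_num) h4 (by positivity) hch
    calc (L : ℝ)⁻¹ * (‖r ^ l - 1‖ / ‖r - 1‖) ≤ (L : ℝ)⁻¹ * (2 / (4 * (na q : ℝ) / L)) :=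
          mul_le_mul_of_nonneg_left h5 (by positivity)
      _ = 1 / (2 * (na q : ℝ)) := by
          field_simp
          ring

theorem gh_inv (l : ℕ) (hl : l ≤ L) (t : ZMod L) :
    ∑ q : ZMod L, gh l q * (ZMod.stdAddChar (q * t) : ℂ) = if t.val < l then 1 else 0 := by
  classical
  have hL := Lpos' (L := L)
  have hLc : (L : ℂ) ≠ 0 := by exact_mod_cast hL.ne'
  have h1 : ∀ q : ZMod L, gh l q * (ZMod.stdAddChar (q * t) : ℂ) =
      (L : ℂ)⁻¹ * ∑ j ∈ Finset.range l, (ZMod.stdAddChar (q * (t - (j : ZMod L))) : ℂ) := by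
    intro q
    unfold gh
    rw [mul_assoc, Finset.sum_mul]
    congr 1
    refine Finset.sum_congr rfl fun j _ => ?_
    rw [← AddChar.map_add_eq_mul]
    congr 1
    ring
  simp only [h1]
  rw [← Finset.mul_sum, Finset.sum_comm]
  have h2 : ∀ j : ℕ, ∑ q : ZMod L, (ZMod.stdAddChar (q * (t - (j : ZMod L))) : ℂ) =
      if t = (j : ZMod L) then (L : ℂ) else 0 := by
    intro j
    have h3 := AddChar.sum_mulShift (t - (j : ZMod L)) (ZMod.isPrimitive_stdAddChar L)
    rw [h3]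
    simp only [sub_eq_zero, ZMod.card]
    split_ifs <;> simp
  simp only [h2]
  by_cases ht : t.val < l
  · rw [if_pos ht, Finset.sum_eq_single t.val]
    · rw [if_pos (ZMod.natCast_zmod_val t).symm, inv_mul_cancel₀ hLc]
    · intro j hj hne
      rw [if_neg]
      intro h
      apply hne
      rw [h, ZMod.val_cast_of_lt]
      exact lt_of_lt_of_le (Finset.mem_range.1 hj) hl
    · intro h
      exact absurd (Finset.mem_range.2 ht) h
  · rw [if_neg ht, Finset.sum_eq_zero, mul_zero]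
    intro j hj
    rw [if_neg]
    intro h
    apply ht
    rw [h, ZMod.val_cast_of_lt (lt_of_lt_of_le (Finset.mem_range.1 hj) hl)]
    exact Finset.mem_range.1 hj

theorem box_fourier (f : T d L → ℝ) (y : T d L) (ℓ : Fin d → ℕ) (hℓ : ∀ i, ℓ i ≤ L) :
    ((∑ x ∈ bx y ℓ, f x : ℝ) : ℂ) = ∑ p : T d L, (∏ i, gh (ℓ i) (p i)) *
      (e p (-y) * ∑ x, e p x * (f x : ℂ)) := by
  classical
  have h1 : ((∑ x ∈ bx y ℓ, f x : ℝ) : ℂ) = ∑ x : T d L,
      (∏ i, (if (x i - y i).val < ℓ i then (1 : ℂ) else 0)) * (f x : ℂ) := by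
    unfold bx
    rw [Finset.sum_filter]
    push_cast
    refine Finset.sum_congr rfl fun x _ => ?_
    rw [Finset.prod_ite_zero]
    by_cases h : ∀ i, (x i - y i).val < ℓ i
    · rw [if_pos h, if_pos (fun i _ => h i)]
      simp
    · rw [if_neg h, if_neg (fun h' => h fun i => h' i (Finset.mem_univ i))]
      simp
  rw [h1]
  have h2 : ∀ x : T d L, (∏ i, (if (x i - y i).val < ℓ i then (1 : ℂ) else 0)) =
      ∑ p : T d L, (∏ i, gh (ℓ i) (p i)) * (e p (-y) * e p x) := by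
    intro x
    have h3 : (∏ i, (if (x i - y i).val < ℓ i then (1 : ℂ) else 0)) =
        ∏ i, ∑ q : ZMod L, gh (ℓ i) q * (ZMod.stdAddChar (q * (x i - y i)) : ℂ) :=
      Finset.prod_congr rfl fun i _ => (gh_inv (ℓ i) (hℓ i) _).symm
    rw [h3, Finset.prod_univ_sum, Fintype.piFinset_univ]
    refine Finset.sum_congr rfl fun p _ => ?_
    rw [Finset.prod_mul_distrib, ← e_add]
    congr 1
    unfold e
    have h4 : ∀ s : Finset (Fin d), ∏ i ∈ s, (ZMod.stdAddChar (p i * (x i - y i)) : ℂ) =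
        ZMod.stdAddChar (∑ i ∈ s, p i * (x i - y i)) := by
      intro s
      induction s using Finset.induction_on with
      | empty => simp
      | insert a s ha ih =>
        rw [Finset.prod_insert ha, Finset.sum_insert ha, AddChar.map_add_eq_mul, ih]
    rw [h4]
    congr 1
    refine Finset.sum_congr rfl fun i _ => ?_
    simp only [Pi.add_apply, Pi.neg_apply]
    ring
  simp only [h2]
  simp only [Finset.sum_mul]
  rw [Finset.sum_comm]
  refine Finset.sum_congr rfl fun p _ => ?_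
  rw [Finset.mul_sum, Finset.mul_sum]
  refine Finset.sum_congr rfl fun x _ => ?_
  ring

/-- **boxes and Fourier coefficients** -/
theorem box_bound (f : T d L → ℝ) (hf : ∑ x, f x = 1) (y : T d L) (ℓ : Fin d → ℕ)
    (hℓ : ∀ i, ℓ i ≤ L) :
    (∑ x ∈ bx y ℓ, f x - ∏ i, ((ℓ i : ℝ) / L)) ^ 2 ≤
      (2 + Real.log L) ^ d * ∑ p ∈ Finset.univ.erase (0 : T d L), mm p *
        ‖∑ x, e p x * (f x : ℂ)‖ ^ 2 := by
  classical
  have h1 := box_fourier f y ℓ hℓ
  rw [← Finset.add_sum_erase _ _ (Finset.mem_univ (0 : T d L))] at h1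
  have h2 : (∏ i, gh (ℓ i) ((0 : T d L) i)) * (e 0 (-y) * ∑ x, e 0 x * (f x : ℂ)) =
      ((∏ i, ((ℓ i : ℝ) / L) : ℝ) : ℂ) := by
    have e0 : ∀ x : T d L, e 0 x = 1 := fun x => by rw [e_comm, e_zero]
    simp only [e0, one_mul, Pi.zero_apply, gh_zero]
    rw [← Complex.ofReal_sum, hf]
    push_cast
    ring
  rw [h2] at h1
  have h3 : (∑ x ∈ bx y ℓ, f x - ∏ i, ((ℓ i : ℝ) / L)) ^ 2 =
      ‖∑ p ∈ Finset.univ.erase (0 : T d L), (∏ i, gh (ℓ i) (p i)) *
      (e p (-y) * ∑ x, e p x * (f x : ℂ))‖ ^ 2 := by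
    have h4 : ∑ p ∈ Finset.univ.erase (0 : T d L), (∏ i, gh (ℓ i) (p i)) *
      (e p (-y) * ∑ x, e p x * (f x : ℂ)) =
        ((∑ x ∈ bx y ℓ, f x - ∏ i, ((ℓ i : ℝ) / L) : ℝ) : ℂ) := by
      rw [Complex.ofReal_sub, h1]
      ring
    rw [h4, Complex.norm_real, Real.norm_eq_abs, sq_abs]
  rw [h3]
  have h5 : ‖∑ p ∈ Finset.univ.erase (0 : T d L), (∏ i, gh (ℓ i) (p i)) *
      (e p (-y) * ∑ x, e p x * (f x : ℂ))‖ ≤
      ∑ p ∈ Finset.univ.erase (0 : T d L), mm p * ‖∑ x, e p x * (f x : ℂ)‖ := by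
    refine (norm_sum_le _ _).trans (Finset.sum_le_sum fun p _ => ?_)
    rw [norm_mul, norm_mul, e_norm, one_mul, norm_prod]
    refine mul_le_mul_of_nonneg_right ?_ (norm_nonneg _)
    unfold mm
    exact Finset.prod_le_prod (fun _ _ => norm_nonneg _) fun i _ => gh_le _ (hℓ i) _
  have h6 := pow_le_pow_left₀ (norm_nonneg _) h5 2
  refine h6.trans ?_
  have h7 := Finset.sum_mul_sq_le_sq_mul_sq (Finset.univ.erase (0 : T d L))
    (fun p => Real.sqrt (mm p)) (fun p => Real.sqrt (mm p) * ‖∑ x, e p x * (f x : ℂ)‖)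
  have h8 : ∀ p : T d L, Real.sqrt (mm p) * (Real.sqrt (mm p) * ‖∑ x, e p x * (f x : ℂ)‖) =
      mm p * ‖∑ x, e p x * (f x : ℂ)‖ := by
    intro p
    rw [← mul_assoc, Real.mul_self_sqrt (mm_nonneg p)]
  have h9 : ∀ p : T d L, (Real.sqrt (mm p) * ‖∑ x, e p x * (f x : ℂ)‖) ^ 2 =
      mm p * ‖∑ x, e p x * (f x : ℂ)‖ ^ 2 := by
    intro p
    rw [mul_pow, Real.sq_sqrt (mm_nonneg p)]
  simp only [h8, h9, Real.sq_sqrt (mm_nonneg _)] at h7
  refine h7.trans (mul_le_mul_of_nonneg_right ?_ (Finset.sum_nonneg fun p _ =>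
    mul_nonneg (mm_nonneg p) (by positivity)))
  refine le_trans ?_ mm_sum
  exact Finset.sum_le_sum_of_subset_of_nonneg (Finset.erase_subset _ _)
    (fun p _ _ => mm_nonneg p)

end Pool.Agent.Zk96.QE
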