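import Pool.Agent.Zk60.LL.Cau

/-! A lower bound for the integral of a product of two Cauchy kernels over a window. -/

set_option autoImplicit false
set_option linter.unusedSectionVars false

open scoped BigOperators Topology Interval
open MeasureTheory Filter

namespace Pool.Agent.Zk96.QE

open Pool.Agent.Zk60.LL.Cau

theorem den_pos (η a u : ℝ) (hη : 0 < η) : 0 < (a - u) ^ 2 + η ^ 2 := by positivity

/-- the mass of the Cauchy kernel near its centre -/
theorem cau_near (η a R : ℝ) (hη : 0 < η) :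
    ∫ u in (a - R)..(a + R), η / ((a - u) ^ 2 + η ^ 2) = 2 * Real.arctan (R / η) := by
  have h1 : ∀ u ∈ [[a - R, a + R]], HasDerivAt (fun u => Real.arctan ((u - a) / η))
      (η / ((a - u) ^ 2 + η ^ 2)) u := by
    intro u _
    have h2 : HasDerivAt (fun u : ℝ => (u - a) / η) (1 / η) u :=
      ((hasDerivAt_id u).sub_const a).div_const η
    refine h2.arctan.congr_deriv ?_
    have := den_pos η a u hη
    have e : (u - a) ^ 2 = (a - u) ^ 2 := by ring
    field_simp
    ring
  have hc : ContinuousOn (fun u : ℝ => η / ((a - u) ^ 2 + η ^ 2)) [[a - R, a + R]] := by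
    refine ContinuousOn.div (by fun_prop) (by fun_prop) fun u _ => (den_pos η a u hη).ne'
  rw [intervalIntegral.integral_eq_sub_of_hasDerivAt h1 hc.intervalIntegrable]
  have e1 : (a + R - a) / η = R / η := by ring
  have e2 : (a - R - a) / η = -(R / η) := by ring
  rw [e1, e2, Real.arctan_neg]
  ring

theorem arctan_le' (x : ℝ) (hx : 0 ≤ x) : Real.arctan x ≤ x := by
  rcases eq_or_lt_of_le hx with h | h
  · rw [← h, Real.arctan_zero]
  · have h1 := Real.arctan_pos.2 h
    have h2 := Real.lt_tan h1 (Real.arctan_lt_pi_div_two x)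
    rw [Real.tan_arctan] at h2
    exact h2.le

theorem arctan_ge (x : ℝ) (hx : 0 < x) : Real.pi / 2 - 1 / x ≤ Real.arctan x := by
  have h1 := Real.arctan_inv_of_pos hx
  have h2 := arctan_le' x⁻¹ (by positivity)
  rw [one_div]
  linarith

/-- the first moment of the Cauchy kernel near its centre -/
theorem mom_near (η a R : ℝ) (hη : 0 < η) (hR : 0 ≤ R) :
    ∫ u in (a - R)..(a + R), |u - a| / ((a - u) ^ 2 + η ^ 2) =
      Real.log (R ^ 2 + η ^ 2) - Real.log (η ^ 2) := by
  have hd : ∀ u : ℝ, HasDerivAt (fun u : ℝ => 1 / 2 * Real.log ((a - u) ^ 2 + η ^ 2))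
      ((u - a) / ((a - u) ^ 2 + η ^ 2)) u := by
    intro u
    have h1 : HasDerivAt (fun u : ℝ => (a - u) ^ 2 + η ^ 2) (2 * (u - a)) u := by
      have := (((hasDerivAt_id u).const_sub a).pow 2).add_const (η ^ 2)
      refine this.congr_deriv ?_
      simp
      ring
    have h2 := (h1.log (den_pos η a u hη).ne').const_mul (1 / 2)
    refine h2.congr_deriv ?_
    ring
  have hc : Continuous (fun u : ℝ => |u - a| / ((a - u) ^ 2 + η ^ 2)) := by
    refine Continuous.div (by fun_prop) (by fun_prop) fun u => (den_pos η a u hη).ne'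
  have hc' : Continuous (fun u : ℝ => (u - a) / ((a - u) ^ 2 + η ^ 2)) := by
    refine Continuous.div (by fun_prop) (by fun_prop) fun u => (den_pos η a u hη).ne'
  rw [← intervalIntegral.integral_add_adjacent_intervals (b := a) (hc.intervalIntegrable _ _)
    (hc.intervalIntegrable _ _)]
  have e1 : ∫ u in a..(a + R), |u - a| / ((a - u) ^ 2 + η ^ 2) =
      1 / 2 * Real.log (R ^ 2 + η ^ 2) - 1 / 2 * Real.log (η ^ 2) := by
    have h3 : ∫ u in a..(a + R), |u - a| / ((a - u) ^ 2 + η ^ 2) =
        ∫ u in a..(a + R), (u - a) / ((a - u) ^ 2 + η ^ 2) := by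
      refine intervalIntegral.integral_congr fun u hu => ?_
      rw [Set.uIcc_of_le (by linarith)] at hu
      rw [abs_of_nonneg (by linarith [hu.1])]
    rw [h3, intervalIntegral.integral_eq_sub_of_hasDerivAt (fun u _ => hd u)
      (hc'.intervalIntegrable _ _)]
    have e : (a - (a + R)) ^ 2 = R ^ 2 := by ring
    rw [e, sub_self]
    simp
  have e2 : ∫ u in (a - R)..a, |u - a| / ((a - u) ^ 2 + η ^ 2) =
      1 / 2 * Real.log (R ^ 2 + η ^ 2) - 1 / 2 * Real.log (η ^ 2) := by
    have h3 : ∫ u in (a - R)..a, |u - a| / ((a - u) ^ 2 + η ^ 2) =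
        -∫ u in (a - R)..a, (u - a) / ((a - u) ^ 2 + η ^ 2) := by
      rw [← intervalIntegral.integral_neg]
      refine intervalIntegral.integral_congr fun u hu => ?_
      rw [Set.uIcc_of_le (by linarith)] at hu
      rw [abs_of_nonpos (by linarith [hu.2])]
      ring
    rw [h3, intervalIntegral.integral_eq_sub_of_hasDerivAt (fun u _ => hd u)
      (hc'.intervalIntegrable _ _)]
    have e : (a - (a - R)) ^ 2 = R ^ 2 := by ring
    rw [e, sub_self]
    simp
  rw [e1, e2]
  ring

/-- the weighted product -/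
noncomputable def ww (η a b u : ℝ) : ℝ :=
  η * (a - b) ^ 2 / (((a - u) ^ 2 + η ^ 2) * (((a - u) ^ 2 + η ^ 2) + ((b - u) ^ 2 + η ^ 2)))

theorem ww_nonneg (η a b u : ℝ) (hη : 0 < η) : 0 ≤ ww η a b u := by
  unfold ww
  positivity

theorem ww_le (η a b u : ℝ) (hη : 0 < η) : ww η a b u ≤ 2 * (η / ((a - u) ^ 2 + η ^ 2)) := by
  unfold ww
  have ha := den_pos η a u hη
  have hb := den_pos η b u hη
  rw [← mul_div_assoc, div_le_div_iff₀ (by positivity) ha]
  have h1 : (a - b) ^ 2 ≤ 2 * (((a - u) ^ 2 + η ^ 2) + ((b - u) ^ 2 + η ^ 2)) := by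
    nlinarith [sq_nonneg ((a - u) + (b - u))]
  have h2 : 0 ≤ η * ((a - u) ^ 2 + η ^ 2) := by positivity
  nlinarith [mul_le_mul_of_nonneg_left h1 h2]

theorem ww_cont (η a b : ℝ) (hη : 0 < η) : Continuous (ww η a b) := by
  unfold ww
  refine Continuous.div (by fun_prop) (by fun_prop) fun u => ?_
  have ha := den_pos η a u hη
  have hb := den_pos η b u hη
  positivity

theorem pk_int (η a : ℝ) (hη : 0 < η) : Integrable fun u : ℝ => η / ((a - u) ^ 2 + η ^ 2) := by
  refine ((cau_int η a hη).const_mul η).congr (Eventually.of_forall fun u => ?_)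
  simp only
  ring

theorem pk_val (η a : ℝ) (hη : 0 < η) : ∫ u, η / ((a - u) ^ 2 + η ^ 2) = Real.pi := by
  have h1 := fc_diag η a hη
  have h2 : ∫ u, η / ((a - u) ^ 2 + η ^ 2) = η * ∫ u, fc η a a u := by
    rw [← integral_const_mul]
    refine integral_congr_ae (Eventually.of_forall fun u => ?_)
    simp only
    rw [fc_self η a u hη]
    ring
  rw [h2, h1]
  field_simp

theorem ww_int (η a b : ℝ) (hη : 0 < η) : Integrable (ww η a b) := by
  refine Integrable.mono' ((pk_int η a hη).const_mul 2) (ww_cont η a b hη).aestronglyMeasurable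
    (Eventually.of_forall fun u => ?_)
  rw [Real.norm_eq_abs, abs_of_nonneg (ww_nonneg η a b u hη)]
  exact ww_le η a b u hη

theorem ww_refl (η a b u : ℝ) : ww η a b (a + b - u) = ww η b a u := by
  unfold ww
  congr 1
  · ring
  · ring

theorem fc_dec (η a b u : ℝ) (hη : 0 < η) : η * fc η a b u =
    1 / 2 * (η / ((a - u) ^ 2 + η ^ 2)) + 1 / 2 * (η / ((b - u) ^ 2 + η ^ 2)) -
      1 / 2 * ww η a b u - 1 / 2 * ww η b a u := by
  have ha := den_pos η a u hη
  have hb := den_pos η b u hη
  unfold fc ww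
  field_simp
  ring

theorem ww_val (η a b : ℝ) (hη : 0 < η) : ∫ u, ww η a b u ≤ Real.pi := by
  have h1 : ∫ u, ww η a b u = ∫ u, ww η b a u := by
    have h2 := integral_sub_left_eq_self (fun u => ww η a b u) volume (a + b)
    rw [← h2]
    refine integral_congr_ae (Eventually.of_forall fun u => ?_)
    exact ww_refl η a b u
  have h3 : ∫ u, η * fc η a b u = 1 / 2 * Real.pi + 1 / 2 * Real.pi -
      1 / 2 * (∫ u, ww η a b u) - 1 / 2 * ∫ u, ww η b a u := by
    simp only [fc_dec η a b _ hη]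
    have i1 := (pk_int η a hη).const_mul (1 / 2)
    have i2 := (pk_int η b hη).const_mul (1 / 2)
    have i3 := (ww_int η a b hη).const_mul (1 / 2)
    have i4 := (ww_int η b a hη).const_mul (1 / 2)
    rw [integral_sub (f := fun u => 1 / 2 * (η / ((a - u) ^ 2 + η ^ 2)) +
        1 / 2 * (η / ((b - u) ^ 2 + η ^ 2)) - 1 / 2 * ww η a b u)
        (g := fun u => 1 / 2 * ww η b a u) ((i1.add i2).sub i3) i4,
      integral_sub (f := fun u => 1 / 2 * (η / ((a - u) ^ 2 + η ^ 2)) +
        1 / 2 * (η / ((b - u) ^ 2 + η ^ 2))) (g := fun u => 1 / 2 * ww η a b u) (i1.add i2) i3,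
      integral_add i1 i2,
      integral_const_mul, integral_const_mul, integral_const_mul, integral_const_mul,
      pk_val η a hη, pk_val η b hη]
  have h4 : 0 ≤ ∫ u, η * fc η a b u := by
    rw [integral_const_mul]
    exact mul_nonneg hη.le (fc_nonneg_int η a b hη)
  rw [← h1] at h3
  linarith


/-- the pointwise bound for one centre -/
theorem pw (φ : ℝ → ℝ) (K M : ℝ) (hK : 0 ≤ K) (hM : 1 ≤ M) (hφ0 : ∀ u, 0 ≤ φ u)
    (hφL : ∀ u v, |φ u - φ v| ≤ K * |u - v|)
    (hsupp : ∀ u, M < |u| → φ u = 0) (η : ℝ) (hη : 0 < η) (a b u : ℝ) :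
    Set.indicator (Set.Icc (a - 2 * M) (a + 2 * M))
      (fun u => φ a * (η / ((a - u) ^ 2 + η ^ 2)) -
        3 * K * η * (|u - a| / ((a - u) ^ 2 + η ^ 2))) u -
    φ a * ww η a b u - Set.indicator (Set.Icc (-M) M) (fun _ => K * η / M) u ≤
    φ u * (η / ((a - u) ^ 2 + η ^ 2)) - φ u * ww η a b u := by
  have ha := den_pos η a u hη
  have hw0 := ww_nonneg η a b u hη
  have hw1 := ww_le η a b u hη
  set A : ℝ := η / ((a - u) ^ 2 + η ^ 2) with hA
  have hA0 : 0 ≤ A := by positivity
  have hL := abs_le.1 (hφL u a)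
  have hKabs : 0 ≤ K * |u - a| := by positivity
  have hMp : 0 < M := by linarith
  -- bound for the negative part
  have h1 : φ u * ww η a b u ≤ φ a * ww η a b u +
      Set.indicator (Set.Icc (-M) M) (fun _ => 2 * K * |u - a| * A) u := by
    by_cases hu : u ∈ Set.Icc (-M) M
    · rw [Set.indicator_of_mem hu]
      have h2 : φ u ≤ φ a + K * |u - a| := by linarith [hL.2]
      have h3 : φ u * ww η a b u ≤ (φ a + K * |u - a|) * ww η a b u :=
        mul_le_mul_of_nonneg_right h2 hw0
      have h4 : K * |u - a| * ww η a b u ≤ K * |u - a| * (2 * A) :=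
        mul_le_mul_of_nonneg_left hw1 hKabs
      nlinarith
    · rw [Set.indicator_of_notMem hu, add_zero]
      have h2 : φ u = 0 := by
        apply hsupp
        by_contra hcon
        push Not at hcon
        exact hu (abs_le.1 hcon)
      rw [h2, zero_mul]
      exact mul_nonneg (hφ0 a) hw0
  by_cases hS : u ∈ Set.Icc (a - 2 * M) (a + 2 * M)
  · rw [Set.indicator_of_mem hS]
    have h2 : φ a * A - K * |u - a| * A ≤ φ u * A := by
      have : φ a - K * |u - a| ≤ φ u := by linarith [hL.1]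
      nlinarith
    have h3 : Set.indicator (Set.Icc (-M) M) (fun _ => 2 * K * |u - a| * A) u ≤
        2 * K * |u - a| * A := by
      by_cases hu : u ∈ Set.Icc (-M) M
      · rw [Set.indicator_of_mem hu]
      · rw [Set.indicator_of_notMem hu]
        positivity
    have h4 : 0 ≤ Set.indicator (Set.Icc (-M) M) (fun _ => K * η / M) u :=
      Set.indicator_nonneg (fun _ _ => by positivity) _
    have h5 : 3 * K * η * (|u - a| / ((a - u) ^ 2 + η ^ 2)) = 3 * (K * |u - a| * A) := by
      rw [hA]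
      ring
    rw [h5]
    linarith
  · rw [Set.indicator_of_notMem hS]
    have h2 : 0 ≤ φ u * A := mul_nonneg (hφ0 u) hA0
    have h3 : Set.indicator (Set.Icc (-M) M) (fun _ => 2 * K * |u - a| * A) u ≤
        Set.indicator (Set.Icc (-M) M) (fun _ => K * η / M) u := by
      by_cases hu : u ∈ Set.Icc (-M) M
      · rw [Set.indicator_of_mem hu, Set.indicator_of_mem hu]
        have h6 : 2 * M < |u - a| := by
          by_contra hcon
          push Not at hcon
          have := abs_le.1 hcon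
          exact hS ⟨by linarith [this.1], by linarith [this.2]⟩
        have h7 : |u - a| * A ≤ η / (2 * M) := by
          rw [hA, ← mul_div_assoc, div_le_div_iff₀ ha (by positivity)]
          have h8 : |u - a| * |u - a| = (a - u) ^ 2 := by
            rw [abs_mul_abs_self]
            ring
          have h9 : |u - a| * (2 * M) ≤ (a - u) ^ 2 + η ^ 2 := by
            nlinarith [abs_nonneg (u - a), sq_nonneg η]
          nlinarith
        have h8 : 2 * K * |u - a| * A = 2 * K * (|u - a| * A) := by ring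
        rw [h8]
        calc 2 * K * (|u - a| * A) ≤ 2 * K * (η / (2 * M)) :=
              mul_le_mul_of_nonneg_left h7 (by positivity)
          _ = K * η / M := by field_simp
      · rw [Set.indicator_of_notMem hu, Set.indicator_of_notMem hu]
    linarith

theorem ind_int (f : ℝ → ℝ) (hf : Continuous f) (a b : ℝ) :
    Integrable (Set.indicator (Set.Icc a b) f) :=
  (hf.continuousOn.integrableOn_compact isCompact_Icc).integrable_indicator measurableSet_Icc

/-- the integral for one centre -/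
theorem one_centre (φ : ℝ → ℝ) (K M : ℝ) (_hK : 0 ≤ K) (hM : 1 ≤ M) (hφ0 : ∀ u, 0 ≤ φ u)
    (hφ1 : ∀ u, φ u ≤ 1) (η : ℝ) (hη : 0 < η) (a b : ℝ) :
    -(η / M + 3 * K * η * (Real.log ((2 * M) ^ 2 + η ^ 2) - Real.log (η ^ 2)) + 2 * (K * η)) ≤
    ∫ u, (Set.indicator (Set.Icc (a - 2 * M) (a + 2 * M))
      (fun u => φ a * (η / ((a - u) ^ 2 + η ^ 2)) -
        3 * K * η * (|u - a| / ((a - u) ^ 2 + η ^ 2))) u -
    φ a * ww η a b u - Set.indicator (Set.Icc (-M) M) (fun _ => K * η / M) u) := by
  have hMp : 0 < M := by linarith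
  have hc1 : Continuous (fun u : ℝ => η / ((a - u) ^ 2 + η ^ 2)) := by
    refine Continuous.div (by fun_prop) (by fun_prop) fun u => (den_pos η a u hη).ne'
  have hc2 : Continuous (fun u : ℝ => |u - a| / ((a - u) ^ 2 + η ^ 2)) := by
    refine Continuous.div (by fun_prop) (by fun_prop) fun u => (den_pos η a u hη).ne'
  have hc3 : Continuous (fun u : ℝ => φ a * (η / ((a - u) ^ 2 + η ^ 2)) -
        3 * K * η * (|u - a| / ((a - u) ^ 2 + η ^ 2))) :=
    (continuous_const.mul hc1).sub (continuous_const.mul hc2)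
  have i1 := ind_int _ hc3 (a - 2 * M) (a + 2 * M)
  have i2 := (ww_int η a b hη).const_mul (φ a)
  have i3 := ind_int (fun _ => K * η / M) continuous_const (-M) M
  rw [integral_sub (f := fun u => Set.indicator (Set.Icc (a - 2 * M) (a + 2 * M))
      (fun u => φ a * (η / ((a - u) ^ 2 + η ^ 2)) -
        3 * K * η * (|u - a| / ((a - u) ^ 2 + η ^ 2))) u -
    φ a * ww η a b u) (g := fun u => Set.indicator (Set.Icc (-M) M) (fun _ => K * η / M) u)
      (i1.sub i2) i3,
    integral_sub (f := fun u => Set.indicator (Set.Icc (a - 2 * M) (a + 2 * M))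
      (fun u => φ a * (η / ((a - u) ^ 2 + η ^ 2)) -
        3 * K * η * (|u - a| / ((a - u) ^ 2 + η ^ 2))) u) (g := fun u => φ a * ww η a b u) i1 i2,
    integral_const_mul, integral_indicator measurableSet_Icc,
    integral_indicator measurableSet_Icc, integral_Icc_eq_integral_Ioc,
    ← intervalIntegral.integral_of_le (by linarith), intervalIntegral.integral_sub
      (f := fun u => φ a * (η / ((a - u) ^ 2 + η ^ 2)))
      (g := fun u => 3 * K * η * (|u - a| / ((a - u) ^ 2 + η ^ 2)))
      ((continuous_const.mul hc1).intervalIntegrable _ _)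
      ((continuous_const.mul hc2).intervalIntegrable _ _),
    intervalIntegral.integral_const_mul, intervalIntegral.integral_const_mul,
    cau_near η a (2 * M) hη, mom_near η a (2 * M) hη (by positivity)]
  have h1 : ∫ _u in Set.Icc (-M) M, K * η / M = 2 * (K * η) := by
    rw [setIntegral_const, Real.volume_real_Icc_of_le (by linarith), smul_eq_mul]
    field_simp
    ring
  rw [h1]
  have h2 := arctan_ge (2 * M / η) (by positivity)
  have h3 := ww_val η a b hη
  have h4 : φ a * (2 * Real.arctan (2 * M / η)) ≥ φ a * Real.pi - η / M := by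
    have h5 : Real.pi - η / M ≤ 2 * Real.arctan (2 * M / η) := by
      have : 1 / (2 * M / η) = η / M / 2 := by field_simp
      rw [this] at h2
      linarith
    have h6 := mul_le_mul_of_nonneg_left h5 (hφ0 a)
    have h7 : φ a * (η / M) ≤ η / M := by
      have : 0 ≤ η / M := by positivity
      nlinarith [hφ1 a]
    nlinarith
  have h5 := mul_le_mul_of_nonneg_left h3 (hφ0 a)
  linarith

/-- **the window lemma** -/
theorem window' (φ : ℝ → ℝ) (K M : ℝ) (hK : 0 ≤ K) (hM : 1 ≤ M) (hφ0 : ∀ u, 0 ≤ φ u)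
    (hφ1 : ∀ u, φ u ≤ 1) (hφL : ∀ u v, |φ u - φ v| ≤ K * |u - v|)
    (hsupp : ∀ u, M < |u| → φ u = 0) (η : ℝ) (hη : 0 < η) (a b : ℝ) :
    -(η / M + 3 * K * η * (Real.log ((2 * M) ^ 2 + η ^ 2) - Real.log (η ^ 2)) + 2 * (K * η)) ≤
      ∫ u, φ u * (η * fc η a b u) := by
  have hφc : Continuous φ := by
    refine LipschitzWith.continuous (K := ⟨K, hK⟩) (LipschitzWith.of_dist_le_mul fun u v => ?_)
    rw [Real.dist_eq, Real.dist_eq]
    exact hφL u v
  have h1 := one_centre φ K M hK hM hφ0 hφ1 η hη a b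
  have h2 := one_centre φ K M hK hM hφ0 hφ1 η hη b a
  have hI : ∀ a b : ℝ, Integrable fun u => φ u * (η / ((a - u) ^ 2 + η ^ 2)) -
      φ u * ww η a b u := by
    intro a b
    have hb : ∀ᵐ u : ℝ, ‖φ u‖ ≤ 1 := Eventually.of_forall fun u => by
      rw [Real.norm_eq_abs, abs_of_nonneg (hφ0 u)]
      exact hφ1 u
    exact ((pk_int η a hη).bdd_mul hφc.aestronglyMeasurable hb).sub
      ((ww_int η a b hη).bdd_mul hφc.aestronglyMeasurable hb)
  have hJ : ∀ a b : ℝ, Integrable fun u => (Set.indicator (Set.Icc (a - 2 * M) (a + 2 * M))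
      (fun u => φ a * (η / ((a - u) ^ 2 + η ^ 2)) -
        3 * K * η * (|u - a| / ((a - u) ^ 2 + η ^ 2))) u -
    φ a * ww η a b u - Set.indicator (Set.Icc (-M) M) (fun _ => K * η / M) u) := by
    intro a b
    have hc1 : Continuous (fun u : ℝ => η / ((a - u) ^ 2 + η ^ 2)) := by
      refine Continuous.div (by fun_prop) (by fun_prop) fun u => (den_pos η a u hη).ne'
    have hc2 : Continuous (fun u : ℝ => |u - a| / ((a - u) ^ 2 + η ^ 2)) := by
      refine Continuous.div (by fun_prop) (by fun_prop) fun u => (den_pos η a u hη).ne'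
    have hc3 : Continuous (fun u : ℝ => φ a * (η / ((a - u) ^ 2 + η ^ 2)) -
        3 * K * η * (|u - a| / ((a - u) ^ 2 + η ^ 2))) :=
      (continuous_const.mul hc1).sub (continuous_const.mul hc2)
    exact ((ind_int _ hc3 _ _).sub ((ww_int η a b hη).const_mul _)).sub
      (ind_int _ continuous_const _ _)
  have h3 := integral_mono (hJ a b) (hI a b)
    (fun u => pw φ K M hK hM hφ0 hφL hsupp η hη a b u)
  have h4 := integral_mono (hJ b a) (hI b a)
    (fun u => pw φ K M hK hM hφ0 hφL hsupp η hη b a u)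
  have h5 : ∫ u, φ u * (η * fc η a b u) =
      1 / 2 * (∫ u, (φ u * (η / ((a - u) ^ 2 + η ^ 2)) - φ u * ww η a b u)) +
      1 / 2 * ∫ u, (φ u * (η / ((b - u) ^ 2 + η ^ 2)) - φ u * ww η b a u) := by
    rw [← integral_const_mul, ← integral_const_mul, ← integral_add ((hI a b).const_mul _)
      ((hI b a).const_mul _)]
    refine integral_congr_ae (Eventually.of_forall fun u => ?_)
    simp only
    rw [fc_dec η a b u hη]
    ring
  rw [h5]
  linarith

theorem window (φ : ℝ → ℝ) (K M : ℝ) (hK : 0 ≤ K) (hM : 1 ≤ M) (hφ0 : ∀ u, 0 ≤ φ u)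
    (hφ1 : ∀ u, φ u ≤ 1) (hφL : ∀ u v, |φ u - φ v| ≤ K * |u - v|)
    (hsupp : ∀ u, M < |u| → φ u = 0) (η : ℝ) (hη : 0 < η) (hη1 : η ≤ 1) (a b : ℝ) :
    -(40 * (K * η * (1 + Real.log (M / η)) + η / M)) ≤ ∫ u, φ u * (η * fc η a b u) := by
  refine le_trans ?_ (window' φ K M hK hM hφ0 hφ1 hφL hsupp η hη a b)
  have hMp : 0 < M := by linarith
  have h1 : Real.log ((2 * M) ^ 2 + η ^ 2) - Real.log (η ^ 2) ≤ 4 + 2 * Real.log (M / η) := by
    have h2 : Real.log ((2 * M) ^ 2 + η ^ 2) ≤ Real.log (5 * M ^ 2) := by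
      apply Real.log_le_log (by positivity)
      nlinarith
    have h3 : Real.log (5 * M ^ 2) = Real.log 5 + 2 * Real.log M := by
      rw [Real.log_mul (by norm_num) (by positivity), Real.log_pow]
      push_cast
      ring
    have h4 : Real.log 5 ≤ 4 := by
      have := Real.log_le_sub_one_of_pos (show (0 : ℝ) < 5 by norm_num)
      linarith
    rw [Real.log_div hMp.ne' hη.ne', Real.log_pow]
    push_cast
    linarith
  have hlog : 0 ≤ Real.log (M / η) := by
    apply Real.log_nonneg
    rw [le_div_iff₀ hη]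
    linarith
  have hKη : 0 ≤ K * η := by positivity
  have hηM : 0 ≤ η / M := by positivity
  have h5 : 3 * K * η * (Real.log ((2 * M) ^ 2 + η ^ 2) - Real.log (η ^ 2)) ≤
      3 * (K * η) * (4 + 2 * Real.log (M / η)) := by
    have := mul_le_mul_of_nonneg_left h1 (by positivity : 0 ≤ 3 * (K * η))
    linarith
  nlinarith [mul_nonneg hKη hlog]

theorem window_diag (φ : ℝ → ℝ) (hφm : Continuous φ) (hφ0 : ∀ u, 0 ≤ φ u) (hφ1 : ∀ u, φ u ≤ 1)
    (η a : ℝ) (hη : 0 < η) (h : ∀ u, |u - a| ≤ η → φ u = 1) :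
    Real.pi / 2 ≤ ∫ u, φ u * (η * fc η a a u) := by
  have hc1 : Continuous (fun u : ℝ => η / ((a - u) ^ 2 + η ^ 2)) := by
    refine Continuous.div (by fun_prop) (by fun_prop) fun u => (den_pos η a u hη).ne'
  have h1 : ∫ u, Set.indicator (Set.Icc (a - η) (a + η)) (fun u => η / ((a - u) ^ 2 + η ^ 2)) u =
      Real.pi / 2 := by
    rw [integral_indicator measurableSet_Icc, integral_Icc_eq_integral_Ioc,
      ← intervalIntegral.integral_of_le (by linarith), cau_near η a η hη, div_self hη.ne',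
      Real.arctan_one]
    ring
  rw [← h1]
  have hb : ∀ᵐ u : ℝ, ‖φ u‖ ≤ 1 := Eventually.of_forall fun u => by
    rw [Real.norm_eq_abs, abs_of_nonneg (hφ0 u)]
    exact hφ1 u
  refine integral_mono (ind_int _ hc1 _ _)
    (((fc_int η a a hη).const_mul η).bdd_mul hφm.aestronglyMeasurable hb) fun u => ?_
  simp only
  rw [fc_self η a u hη]
  have ha := den_pos η a u hη
  by_cases hu : u ∈ Set.Icc (a - η) (a + η)
  · rw [Set.indicator_of_mem hu, h u (abs_le.2 ⟨by linarith [hu.1], by linarith [hu.2]⟩)]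
    apply le_of_eq
    ring
  · rw [Set.indicator_of_notMem hu]
    have := hφ0 u
    positivity

end Pool.Agent.Zk96.QE
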