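import Pool.Agent.Zk60.LL.Prob
import Pool.Agent.Zk60.LL.Dif
import Pool.Agent.Zk96.QE.Win
import Pool.Agent.Zk96.QE.Box

/-! From averaged Fourier coefficients of the squared Green function to the equidistribution of
the eigenfunctions in boxes. -/

set_option autoImplicit false
set_option linter.unusedSectionVars false

open scoped BigOperators Topology
open MeasureTheory Filter

namespace Pool.Agent.Zk96.QE

open Pool.Agent.W788.MFP.Four (T e NN e_comm e_add_left e_add e_zero e_neg e_neg_left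
  e_normSq sum_e NN_pos card_T e_single)
open Pool.Agent.Zk11.QD (Hz HM HM_apply HM_det uu uu_eq uu_norm uu_meas uu_le PL e_norm na)
open Pool.Agent.Zk60.LL.Cau Pool.Agent.Zk60.LL.Det Pool.Agent.Zk60.LL.Prob

variable {d L : ℕ} [NeZero L]

theorem m1_neg (q : ZMod L) : m1 (-q) = m1 q := by
  unfold m1
  have h : na (-q) = na q := ZMod.natAbs_valMinAbs_neg q
  rw [h]
  simp only [neg_eq_zero]

theorem mm_neg (p : T d L) : mm (-p) = mm p := by
  unfold mm
  exact Finset.prod_congr rfl fun i _ => m1_neg (p i)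

theorem sub_sum {M : Type} [AddCommMonoid M] (f : T d L → M) :
    ∑ p : {p : T d L // p ≠ 0}, f p.1 = ∑ p ∈ Finset.univ.erase (0 : T d L), f p :=
  (Finset.sum_subtype (Finset.univ.erase (0 : T d L)) (by simp) f).symm

/-- the kernel -/
noncomputable def KK (x : T d L) : ℝ :=
  (∑ p : {p : T d L // p ≠ 0}, ((mm p.1 : ℝ) : ℂ) * e p.1 x).re

theorem KK_eq (x : T d L) :
    ((KK x : ℝ) : ℂ) = ∑ p : {p : T d L // p ≠ 0}, ((mm p.1 : ℝ) : ℂ) * e p.1 x := by
  unfold KK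
  rw [← Complex.conj_eq_iff_re]
  rw [sub_sum (fun p : T d L => ((mm p : ℝ) : ℂ) * e p x), map_sum]
  refine Finset.sum_nbij' (fun p => -p) (fun p => -p) ?_ ?_ ?_ ?_ ?_
  · intro p hp
    rw [Finset.mem_erase] at hp ⊢
    exact ⟨neg_ne_zero.2 hp.1, Finset.mem_univ _⟩
  · intro p hp
    rw [Finset.mem_erase] at hp ⊢
    exact ⟨neg_ne_zero.2 hp.1, Finset.mem_univ _⟩
  · intro p _
    exact neg_neg p
  · intro p _
    exact neg_neg p
  · intro p _
    rw [map_mul, Complex.conj_ofReal, mm_neg, e_neg_left]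

/-- the sum of the weights -/
theorem w_sum : ∑ p : {p : T d L // p ≠ 0}, mm p.1 ≤ (2 + Real.log L) ^ d := by
  rw [sub_sum (fun p : T d L => mm p)]
  refine le_trans ?_ mm_sum
  exact Finset.sum_le_sum_of_subset_of_nonneg (Finset.erase_subset _ _)
    (fun p _ _ => mm_nonneg p)

theorem EB_norm {σ : ℝ} {V : T d L → ℝ} {ψ : T d L → T d L → ℂ} {E : T d L → ℝ}
    (h : EB σ V ψ E) (j : T d L) : ∑ x, ‖ψ j x‖ ^ 2 = 1 := by
  have h1 := h.orth j j
  rw [if_pos rfl] at h1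
  have h2 : ∀ x, (starRingEnd ℂ) (ψ j x) * ψ j x = ((‖ψ j x‖ ^ 2 : ℝ) : ℂ) := by
    intro x
    rw [mul_comm, Complex.mul_conj, Complex.normSq_eq_norm_sq]
  simp only [h2] at h1
  exact_mod_cast h1

/-- the coefficients -/
noncomputable def Aj (f g : T d L → ℂ) : ℝ :=
  AA (fun p : {p : T d L // p ≠ 0} => p.1) (fun p => mm p.1) f g

theorem Aj_nonneg (f g : T d L → ℂ) : 0 ≤ Aj f g :=
  AA_nonneg _ _ (fun p : {p : T d L // p ≠ 0} => mm_nonneg p.1) f g

theorem Aj_sum {σ : ℝ} {V : T d L → ℝ} {ψ : T d L → T d L → ℂ} {E : T d L → ℝ}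
    (h : EB σ V ψ E) (j : T d L) : ∑ k, Aj (ψ j) (ψ k) ≤ (2 + Real.log L) ^ d := by
  unfold Aj AA
  rw [Finset.sum_comm]
  refine le_trans (le_of_eq ?_) w_sum
  refine Finset.sum_congr rfl fun p _ => ?_
  rw [← Finset.mul_sum]
  have h1 := Pool.Agent.Zk60.LL.Dif.pars2 h (fun x => e p.1 x * ψ j x)
  have h2 : ∑ k, ‖∑ x, e p.1 x * (ψ j x * (starRingEnd ℂ) (ψ k x))‖ ^ 2 =
      ∑ x, ‖e p.1 x * ψ j x‖ ^ 2 := by
    rw [← h1]
    refine Finset.sum_congr rfl fun k _ => ?_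
    congr 2
    exact Finset.sum_congr rfl fun x _ => by ring
  rw [h2]
  have h3 : ∑ x, ‖e p.1 x * ψ j x‖ ^ 2 = 1 := by
    rw [← EB_norm h j]
    refine Finset.sum_congr rfl fun x _ => ?_
    rw [norm_mul, e_norm, one_mul]
  rw [h3, mul_one]

theorem Aj_diag (f : T d L → ℂ) : Aj f f = ∑ p ∈ Finset.univ.erase (0 : T d L),
    mm p * ‖∑ x, e p x * ((‖f x‖ ^ 2 : ℝ) : ℂ)‖ ^ 2 := by
  unfold Aj AA
  rw [sub_sum (fun p : T d L => mm p * ‖∑ x, e p x * (f x * (starRingEnd ℂ) (f x))‖ ^ 2)]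
  refine Finset.sum_congr rfl fun p _ => ?_
  congr 3
  refine Finset.sum_congr rfl fun x _ => ?_
  rw [Complex.mul_conj, Complex.normSq_eq_norm_sq]

/-- the main random variable -/
noncomputable def FF (φ : ℝ → ℝ) (A B η σ : ℝ) (V : T d L → ℝ) : ℝ :=
  ∫ u in Set.Icc A B, φ u * (η * SS KK ((u : ℂ) + η * Complex.I) σ V)

/-- the lower bound -/
theorem FF_lower {σ : ℝ} {V : T d L → ℝ} {ψ : T d L → T d L → ℂ} {E : T d L → ℝ}
    (h : EB σ V ψ E) (φ : ℝ → ℝ) (hφc : Continuous φ) (A B η E1 E2 err : ℝ) (hη : 0 < η)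
    (hsupp : ∀ u, u ∉ Set.Icc A B → φ u = 0) (herr : 0 ≤ err)
    (hw : ∀ a b, -err ≤ ∫ u, φ u * (η * fc η a b u))
    (hd : ∀ a, E1 ≤ a → a ≤ E2 → Real.pi / 2 ≤ ∫ u, φ u * (η * fc η a a u)) :
    Real.pi / 2 * ∑ j ∈ Finset.univ.filter (fun j => E1 ≤ E j ∧ E j ≤ E2), Aj (ψ j) (ψ j) ≤
      FF φ A B η σ V + err * (Fintype.card (T d L) : ℝ) * (2 + Real.log L) ^ d := by
  classical
  have h1 : FF φ A B η σ V = ∑ j, ∑ k, Aj (ψ j) (ψ k) *
      ∫ u, φ u * (η * fc η (E j) (E k) u) := by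
    unfold FF
    have h2 : ∀ u : ℝ, φ u * (η * SS KK ((u : ℂ) + η * Complex.I) σ V) =
        ∑ j, ∑ k, Aj (ψ j) (ψ k) * (φ u * (η * fc η (E j) (E k) u)) := by
      intro u
      rw [SS_eq h (fun p : {p : T d L // p ≠ 0} => p.1) (fun p => mm p.1) KK KK_eq η u hη,
        Finset.mul_sum, Finset.mul_sum]
      refine Finset.sum_congr rfl fun j _ => ?_
      rw [Finset.mul_sum, Finset.mul_sum]
      refine Finset.sum_congr rfl fun k _ => ?_
      unfold Aj
      ring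
    simp only [h2]
    have hi : ∀ j k : T d L, IntegrableOn
        (fun u => Aj (ψ j) (ψ k) * (φ u * (η * fc η (E j) (E k) u))) (Set.Icc A B) := by
      intro j k
      have hc : Continuous fun u => Aj (ψ j) (ψ k) * (φ u * (η * fc η (E j) (E k) u)) :=
        continuous_const.mul (hφc.mul (continuous_const.mul (fc_cont η _ _ hη)))
      exact hc.continuousOn.integrableOn_compact isCompact_Icc
    rw [integral_finsetSum _ fun j _ => integrable_finsetSum _ fun k _ => hi j k]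
    refine Finset.sum_congr rfl fun j _ => ?_
    rw [integral_finsetSum _ fun k _ => hi j k]
    refine Finset.sum_congr rfl fun k _ => ?_
    rw [integral_const_mul]
    congr 1
    refine setIntegral_eq_integral_of_forall_compl_eq_zero fun u hu => ?_
    rw [hsupp u hu, zero_mul]
  set J := Finset.univ.filter (fun j => E1 ≤ E j ∧ E j ≤ E2) with hJ
  have h3 : ∀ j k : T d L, Aj (ψ j) (ψ k) * (if j = k ∧ j ∈ J then Real.pi / 2 else 0) -
      err * Aj (ψ j) (ψ k) ≤ Aj (ψ j) (ψ k) * ∫ u, φ u * (η * fc η (E j) (E k) u) := by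
    intro j k
    have hA := Aj_nonneg (ψ j) (ψ k)
    by_cases hc : j = k ∧ j ∈ J
    · rw [if_pos hc]
      obtain ⟨rfl, hjJ⟩ := hc
      have h4 := (Finset.mem_filter.1 hjJ).2
      have h5 := mul_le_mul_of_nonneg_left (hd (E j) h4.1 h4.2) hA
      have : 0 ≤ err * Aj (ψ j) (ψ j) := mul_nonneg herr hA
      linarith
    · rw [if_neg hc, mul_zero]
      have h5 := mul_le_mul_of_nonneg_left (hw (E j) (E k)) hA
      linarith
  have h4 : ∑ j, ∑ k, (Aj (ψ j) (ψ k) * (if j = k ∧ j ∈ J then Real.pi / 2 else 0) -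
      err * Aj (ψ j) (ψ k)) ≤ FF φ A B η σ V := by
    rw [h1]
    exact Finset.sum_le_sum fun j _ => Finset.sum_le_sum fun k _ => h3 j k
  have h5 : ∑ j, ∑ k, (Aj (ψ j) (ψ k) * (if j = k ∧ j ∈ J then Real.pi / 2 else 0) -
      err * Aj (ψ j) (ψ k)) = Real.pi / 2 * ∑ j ∈ J, Aj (ψ j) (ψ j) -
      err * ∑ j, ∑ k, Aj (ψ j) (ψ k) := by
    simp only [Finset.sum_sub_distrib]
    congr 1
    · rw [Finset.mul_sum, ← Finset.sum_filter_add_sum_filter_not Finset.univ (fun j => j ∈ J)]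
      have e1 : ∑ j ∈ Finset.univ.filter (fun j => ¬ j ∈ J), ∑ k, Aj (ψ j) (ψ k) *
          (if j = k ∧ j ∈ J then Real.pi / 2 else 0) = 0 := by
        refine Finset.sum_eq_zero fun j hj => Finset.sum_eq_zero fun k _ => ?_
        rw [if_neg (fun hc => (Finset.mem_filter.1 hj).2 hc.2), mul_zero]
      rw [e1, add_zero]
      have e2 : Finset.univ.filter (fun j => j ∈ J) = J := by
        ext j
        simp
      rw [e2]
      refine Finset.sum_congr rfl fun j hj => ?_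
      rw [Finset.sum_eq_single j]
      · rw [if_pos ⟨rfl, hj⟩]
        ring
      · intro k _ hk
        rw [if_neg (fun hc => hk hc.1.symm), mul_zero]
      · intro hc
        exact absurd (Finset.mem_univ j) hc
    · rw [Finset.mul_sum]
      refine Finset.sum_congr rfl fun j _ => ?_
      rw [Finset.mul_sum]
  have h6 : ∑ j, ∑ k, Aj (ψ j) (ψ k) ≤ (Fintype.card (T d L) : ℝ) * (2 + Real.log L) ^ d := by
    refine (Finset.sum_le_sum fun j _ => Aj_sum h j).trans (le_of_eq ?_)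
    rw [Finset.sum_const, Finset.card_univ, nsmul_eq_mul]
  have h7 := mul_le_mul_of_nonneg_left h6 herr
  rw [h5] at h4
  linarith

theorem SS_cont (φ : ℝ → ℝ) (hφc : Continuous φ) (K : T d L → ℝ) (η : ℝ) (hη : 0 < η) (σ : ℝ) :
    Continuous fun p : ℝ × (T d L → ℝ) => φ p.1 * (η * SS K ((p.1 : ℂ) + η * Complex.I) σ p.2) := by
  unfold SS
  refine (hφc.comp continuous_fst).mul (continuous_const.mul (continuous_finsetSum _ fun x _ =>
    continuous_finsetSum _ fun y _ => continuous_const.mul ?_))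
  exact (RR_cont η hη σ x y).norm.pow 2

theorem FF_meas (φ : ℝ → ℝ) (hφc : Continuous φ) (A B η σ : ℝ) (hη : 0 < η) :
    Measurable (FF (d := d) (L := L) φ A B η σ) := by
  have h1 := (SS_cont (d := d) (L := L) φ hφc KK η hη σ).stronglyMeasurable
  have h2 : StronglyMeasurable fun V : T d L → ℝ => ∫ u in Set.Icc A B,
      φ u * (η * SS KK ((u : ℂ) + η * Complex.I) σ V) :=
    StronglyMeasurable.integral_prod_left (μ := volume.restrict (Set.Icc A B))
      (f := fun (u : ℝ) (V : T d L → ℝ) => φ u * (η * SS KK ((u : ℂ) + η * Complex.I) σ V)) h1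
  exact h2.measurable

theorem SS_abs (K : T d L → ℝ) (η : ℝ) (hη : 0 < η) (σ u : ℝ) (V : T d L → ℝ) :
    |SS K ((u : ℂ) + η * Complex.I) σ V| ≤ ∑ x : T d L, ∑ y : T d L, |K (x - y)| * (1 / η ^ 2) := by
  unfold SS
  refine (Finset.abs_sum_le_sum_abs _ _).trans (Finset.sum_le_sum fun x _ => ?_)
  refine (Finset.abs_sum_le_sum_abs _ _).trans (Finset.sum_le_sum fun y _ => ?_)
  rw [abs_mul, abs_of_nonneg (by positivity : 0 ≤ ‖RR ((u : ℂ) + η * Complex.I) σ V x y‖ ^ 2)]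
  have h3 := RR_le ((u : ℂ) + η * Complex.I) (by simpa using hη) σ V x y
  have h4 : ((u : ℂ) + η * Complex.I).im = η := by simp
  rw [h4] at h3
  exact mul_le_mul_of_nonneg_left h3 (abs_nonneg _)

theorem avg_SS (μ : Measure ℝ) [IsProbabilityMeasure μ] (K : T d L → ℝ) (η : ℝ)
    (hη : 0 < η) (σ u : ℝ) :
    ∫ V, SS K ((u : ℂ) + η * Complex.I) σ V ∂(PL (T d L) μ) = (Fintype.card (T d L) : ℝ) *
      ∑ x, K x * ∫ V, ‖uu ((u : ℂ) + η * Complex.I) σ V x‖ ^ 2 ∂(PL (T d L) μ) := by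
  have hz : 0 < ((u : ℂ) + η * Complex.I).im := by simpa using hη
  unfold SS
  have hi : ∀ x y : T d L, Integrable (fun V : T d L → ℝ =>
      K (x - y) * ‖RR ((u : ℂ) + η * Complex.I) σ V x y‖ ^ 2) (PL (T d L) μ) := by
    intro x y
    refine Integrable.const_mul ?_ _
    refine Integrable.mono' (integrable_const (1 / ((u : ℂ) + η * Complex.I).im ^ 2)) ?_ ?_
    · have h1 := (RR_cont η hη σ x y).comp (Continuous.prodMk_right u)
      exact (h1.norm.pow 2).aestronglyMeasurable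
    · refine Eventually.of_forall fun V => ?_
      rw [Real.norm_eq_abs, abs_of_nonneg (by positivity)]
      exact RR_le _ hz σ V x y
  rw [integral_finsetSum _ fun x _ => integrable_finsetSum _ fun y _ => hi x y]
  have h1 : ∀ x : T d L, ∫ V, ∑ y, K (x - y) * ‖RR ((u : ℂ) + η * Complex.I) σ V x y‖ ^ 2
      ∂(PL (T d L) μ) = ∑ y, K y *
        ∫ V, ‖uu ((u : ℂ) + η * Complex.I) σ V y‖ ^ 2 ∂(PL (T d L) μ) := by
    intro x
    rw [integral_finsetSum _ fun y _ => hi x y]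
    simp only [integral_const_mul, avg_RR μ _ hz]
    exact Equiv.sum_comp (Equiv.subLeft x : T d L ≃ T d L) (fun y => K y *
        ∫ V, ‖uu ((u : ℂ) + η * Complex.I) σ V y‖ ^ 2 ∂(PL (T d L) μ))
  simp only [h1]
  rw [Finset.sum_const, Finset.card_univ, nsmul_eq_mul]

/-- the upper bound in mean -/
theorem FF_avg (μ : Measure ℝ) [IsProbabilityMeasure μ] (φ : ℝ → ℝ) (hφc : Continuous φ)
    (hφ0 : ∀ u, 0 ≤ φ u) (hφ1 : ∀ u, φ u ≤ 1) (A B η σ ε : ℝ) (hAB : A ≤ B) (hη : 0 < η)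
    (hε : 0 ≤ ε)
    (hmain : ∀ u : ℝ, A ≤ u → u ≤ B → ∀ p : T d L, p ≠ 0 → ‖(η : ℂ) * ∑ x, e p x *
      ((∫ V, ‖uu ((u : ℂ) + η * Complex.I) σ V x‖ ^ 2 ∂(PL (T d L) μ) : ℝ) : ℂ)‖ ≤ ε) :
    Integrable (FF (d := d) (L := L) φ A B η σ) (PL (T d L) μ) ∧
    ∫ V, FF φ A B η σ V ∂(PL (T d L) μ) ≤
      (Fintype.card (T d L) : ℝ) * (2 + Real.log L) ^ d * (ε * (B - A)) := by
  set Cst : ℝ := η * ∑ x : T d L, ∑ y : T d L, |KK (x - y)| * (1 / η ^ 2) with hCst
  have hint : Integrable (fun p : ℝ × (T d L → ℝ) =>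
      φ p.1 * (η * SS KK ((p.1 : ℂ) + η * Complex.I) σ p.2))
      ((volume.restrict (Set.Icc A B)).prod (PL (T d L) μ)) := by
    refine Integrable.mono' (integrable_const Cst)
      (SS_cont φ hφc KK η hη σ).aestronglyMeasurable
      (Eventually.of_forall fun p => ?_)
    rw [Real.norm_eq_abs, abs_mul, abs_mul, abs_of_nonneg (hφ0 p.1), abs_of_pos hη]
    have h1 := SS_abs KK η hη σ p.1 p.2
    have h2 : 0 ≤ η * |SS KK ((p.1 : ℂ) + η * Complex.I) σ p.2| := by positivity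
    calc φ p.1 * (η * |SS KK ((p.1 : ℂ) + η * Complex.I) σ p.2|) ≤
        1 * (η * |SS KK ((p.1 : ℂ) + η * Complex.I) σ p.2|) :=
          mul_le_mul_of_nonneg_right (hφ1 _) h2
      _ ≤ Cst := by
          rw [one_mul, hCst]
          exact mul_le_mul_of_nonneg_left h1 hη.le
  have h1 : Integrable (FF (d := d) (L := L) φ A B η σ) (PL (T d L) μ) := hint.integral_prod_right
  refine ⟨h1, ?_⟩
  have h2 := integral_integral_swap (f := fun (u : ℝ) (V : T d L → ℝ) =>
    φ u * (η * SS KK ((u : ℂ) + η * Complex.I) σ V)) (μ := volume.restrict (Set.Icc A B))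
    (ν := PL (T d L) μ) hint
  have h3 : ∫ V, FF φ A B η σ V ∂(PL (T d L) μ) = ∫ u in Set.Icc A B, φ u * (η *
      ((Fintype.card (T d L) : ℝ) *
      ∑ x, KK x * ∫ V, ‖uu ((u : ℂ) + η * Complex.I) σ V x‖ ^ 2 ∂(PL (T d L) μ))) := by
    unfold FF
    rw [← h2]
    refine integral_congr_ae (Eventually.of_forall fun u => ?_)
    simp only
    rw [integral_const_mul, integral_const_mul, avg_SS μ KK η hη σ u]
  rw [h3]
  have hN : (0 : ℝ) ≤ (Fintype.card (T d L) : ℝ) := by positivity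
  have hlog : 0 ≤ Real.log L := Real.log_natCast_nonneg L
  have h4 : ∀ u ∈ Set.Icc A B, φ u * (η * ((Fintype.card (T d L) : ℝ) *
      ∑ x, KK x * ∫ V, ‖uu ((u : ℂ) + η * Complex.I) σ V x‖ ^ 2 ∂(PL (T d L) μ))) ≤
      (Fintype.card (T d L) : ℝ) * (2 + Real.log L) ^ d * ε := by
    intro u hu
    set I : T d L → ℝ := fun x =>
      ∫ V, ‖uu ((u : ℂ) + η * Complex.I) σ V x‖ ^ 2 ∂(PL (T d L) μ) with hI
    have h5 : ((η * ∑ x, KK x * I x : ℝ) : ℂ) = ∑ p : {p : T d L // p ≠ 0}, ((mm p.1 : ℝ) : ℂ) *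
        ((η : ℂ) * ∑ x, e p.1 x * ((I x : ℝ) : ℂ)) := by
      push_cast
      simp only [KK_eq]
      simp only [Finset.sum_mul, Finset.mul_sum]
      rw [Finset.sum_comm]
      refine Finset.sum_congr rfl fun p _ => Finset.sum_congr rfl fun x _ => ?_
      ring
    have h6 : η * ∑ x, KK x * I x ≤ (2 + Real.log L) ^ d * ε := by
      have h7 : η * ∑ x, KK x * I x ≤ ‖((η * ∑ x, KK x * I x : ℝ) : ℂ)‖ := by
        rw [Complex.norm_real, Real.norm_eq_abs]
        exact le_abs_self _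
      refine h7.trans ?_
      rw [h5]
      refine (norm_sum_le _ _).trans ?_
      calc ∑ p : {p : T d L // p ≠ 0}, ‖((mm p.1 : ℝ) : ℂ) *
          ((η : ℂ) * ∑ x, e p.1 x * ((I x : ℝ) : ℂ))‖ ≤
          ∑ p : {p : T d L // p ≠ 0}, mm p.1 * ε := by
            refine Finset.sum_le_sum fun p _ => ?_
            rw [norm_mul, Complex.norm_real, Real.norm_eq_abs, abs_of_nonneg (mm_nonneg p.1)]
            exact mul_le_mul_of_nonneg_left (hmain u hu.1 hu.2 p.1 p.2) (mm_nonneg p.1)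
        _ = (∑ p : {p : T d L // p ≠ 0}, mm p.1) * ε := by rw [Finset.sum_mul]
        _ ≤ _ := mul_le_mul_of_nonneg_right w_sum hε
    have h8 : φ u * (η * ((Fintype.card (T d L) : ℝ) * ∑ x, KK x * I x)) =
        (Fintype.card (T d L) : ℝ) * (φ u * (η * ∑ x, KK x * I x)) := by ring
    rw [h8]
    have h9 : φ u * (η * ∑ x, KK x * I x) ≤ (2 + Real.log L) ^ d * ε := by
      have h10 : 0 ≤ (2 + Real.log L) ^ d * ε := by positivity
      calc φ u * (η * ∑ x, KK x * I x) ≤ φ u * ((2 + Real.log L) ^ d * ε) :=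
            mul_le_mul_of_nonneg_left h6 (hφ0 u)
        _ ≤ 1 * ((2 + Real.log L) ^ d * ε) := mul_le_mul_of_nonneg_right (hφ1 u) h10
        _ = _ := one_mul _
    calc (Fintype.card (T d L) : ℝ) * (φ u * (η * ∑ x, KK x * I x)) ≤
        (Fintype.card (T d L) : ℝ) * ((2 + Real.log L) ^ d * ε) :=
          mul_le_mul_of_nonneg_left h9 hN
      _ = _ := by ring
  have h5 : IntegrableOn (fun u : ℝ => φ u * (η * ((Fintype.card (T d L) : ℝ) *
      ∑ x, KK x * ∫ V, ‖uu ((u : ℂ) + η * Complex.I) σ V x‖ ^ 2 ∂(PL (T d L) μ)))) (Set.Icc A B) := by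
    have h6 := hint.integral_prod_left
    refine h6.congr (Eventually.of_forall fun u => ?_)
    simp only
    rw [integral_const_mul, integral_const_mul, avg_SS μ KK η hη σ u]
  calc ∫ u in Set.Icc A B, φ u * (η * ((Fintype.card (T d L) : ℝ) *
      ∑ x, KK x * ∫ V, ‖uu ((u : ℂ) + η * Complex.I) σ V x‖ ^ 2 ∂(PL (T d L) μ))) ≤
      ∫ _u in Set.Icc A B, (Fintype.card (T d L) : ℝ) * (2 + Real.log L) ^ d * ε :=
        setIntegral_mono_on h5 (integrableOn_const (by simp)) measurableSet_Icc h4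
    _ = _ := by
        rw [setIntegral_const, Real.volume_real_Icc_of_le hAB, smul_eq_mul]
        ring

/-- the trapezoid -/
noncomputable def tp (A B s u : ℝ) : ℝ := max 0 (min 1 (min ((u - A) * s) ((B - u) * s)))

theorem tp_cont (A B s : ℝ) : Continuous (tp A B s) := by
  unfold tp
  fun_prop

theorem tp_nonneg (A B s u : ℝ) : 0 ≤ tp A B s u := le_max_left _ _

theorem tp_le (A B s u : ℝ) : tp A B s u ≤ 1 := max_le zero_le_one (min_le_left _ _)

theorem tp_lip (A B s : ℝ) (hs : 0 ≤ s) (u v : ℝ) : |tp A B s u - tp A B s v| ≤ s * |u - v| := by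
  unfold tp
  have hn : 0 ≤ s * |u - v| := by positivity
  refine (abs_max_sub_max_le_max _ _ _ _).trans (max_le (by rw [sub_self, abs_zero]; exact hn) ?_)
  refine (abs_min_sub_min_le_max _ _ _ _).trans (max_le (by rw [sub_self, abs_zero]; exact hn) ?_)
  refine (abs_min_sub_min_le_max _ _ _ _).trans (max_le ?_ ?_)
  · have : (u - A) * s - (v - A) * s = s * (u - v) := by ring
    rw [this, abs_mul, abs_of_nonneg hs]
  · have : (B - u) * s - (B - v) * s = s * (v - u) := by ring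
    rw [this, abs_mul, abs_of_nonneg hs, abs_sub_comm]

theorem tp_out (A B s : ℝ) (hs : 0 ≤ s) (u : ℝ) (hu : u ∉ Set.Icc A B) : tp A B s u = 0 := by
  unfold tp
  apply max_eq_left
  rw [Set.mem_Icc, not_and_or] at hu
  rcases hu with hu | hu
  · push Not at hu
    refine (min_le_right _ _).trans ((min_le_left _ _).trans ?_)
    exact mul_nonpos_of_nonpos_of_nonneg (by linarith) hs
  · push Not at hu
    refine (min_le_right _ _).trans ((min_le_right _ _).trans ?_)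
    exact mul_nonpos_of_nonpos_of_nonneg (by linarith) hs

theorem tp_in (A B s : ℝ) (u : ℝ) (h1 : 1 ≤ (u - A) * s) (h2 : 1 ≤ (B - u) * s) :
    tp A B s u = 1 := by
  unfold tp
  rw [min_eq_left (le_min h1 h2), max_eq_right zero_le_one]

/-- **passage from averages to eigenfunctions** -/
theorem passage (μ : Measure ℝ) [IsProbabilityMeasure μ] (E1 E2 M w η σ ε t : ℝ) (hE : E1 ≤ E2)
    (hη : 0 < η) (hηw : 2 * η ≤ w) (hw1 : w ≤ 1) (hM1 : |E1| + 1 ≤ M) (hM2 : |E2| + 1 ≤ M)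
    (hε : 0 ≤ ε) (ht : 0 < t)
    (hmain : ∀ u : ℝ, E1 - w ≤ u → u ≤ E2 + w → ∀ p : T d L, p ≠ 0 → ‖(η : ℂ) * ∑ x, e p x *
      ((∫ V, ‖uu ((u : ℂ) + η * Complex.I) σ V x‖ ^ 2 ∂(PL (T d L) μ) : ℝ) : ℂ)‖ ≤ ε) :
    ∃ Bad : Set (T d L → ℝ), MeasurableSet Bad ∧ (PL (T d L) μ).real Bad ≤
        (2 + Real.log L) ^ (2 * d) * (ε * (E2 - E1 + 2) +
          80 * (η / w * (1 + Real.log (M / η)) + η / M)) / t ^ 3 ∧
      ∀ V, V ∉ Bad → ∀ (ψ : T d L → T d L → ℂ) (E : T d L → ℝ), EB σ V ψ E →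
        ∀ S : Finset (T d L), (∀ j ∈ S, (E1 ≤ E j ∧ E j ≤ E2) ∧
          ∃ (y : T d L) (ℓ : Fin d → ℕ), (∀ i, ℓ i ≤ L) ∧
            t < |∑ x ∈ bx y ℓ, ‖ψ j x‖ ^ 2 - ∏ i, ((ℓ i : ℝ) / L)|) →
        (S.card : ℝ) ≤ t * (Fintype.card (T d L) : ℝ) := by
  classical
  have hw0 : 0 < w := by linarith
  have hMp : 1 ≤ M := by linarith [abs_nonneg E1]
  have hη1 : η ≤ 1 := by linarith
  have hlog : 0 ≤ Real.log L := Real.log_natCast_nonneg L
  have hlogM : 0 ≤ Real.log (M / η) := by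
    apply Real.log_nonneg
    rw [le_div_iff₀ hη]
    linarith
  set Λ : ℝ := (2 + Real.log L) ^ d with hΛ
  have hΛ1 : 1 ≤ Λ := one_le_pow₀ (by linarith)
  set N : ℝ := (Fintype.card (T d L) : ℝ) with hN
  have hN0 : 0 < N := by
    rw [hN]
    exact_mod_cast Fintype.card_pos
  set A : ℝ := E1 - w with hA
  set B : ℝ := E2 + w with hB
  set s : ℝ := 2 / w with hs
  have hs0 : 0 ≤ s := by positivity
  set φ : ℝ → ℝ := tp A B s with hφ
  have hφc : Continuous φ := tp_cont A B s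
  have hφ0 : ∀ u, 0 ≤ φ u := tp_nonneg A B s
  have hφ1 : ∀ u, φ u ≤ 1 := tp_le A B s
  have hφL : ∀ u v, |φ u - φ v| ≤ s * |u - v| := tp_lip A B s hs0
  have hsupp0 : ∀ u, u ∉ Set.Icc A B → φ u = 0 := tp_out A B s hs0
  have hsupp : ∀ u, M < |u| → φ u = 0 := by
    intro u hu
    apply hsupp0
    intro hc
    have h1 := hc.1
    have h2 := hc.2
    have h3 : |u| ≤ M := by
      rw [abs_le]
      constructor
      · have := neg_abs_le E1
        linarith
      · have := le_abs_self E2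
        linarith
    linarith
  set err : ℝ := 40 * (s * η * (1 + Real.log (M / η)) + η / M) with herr
  have herr0 : 0 ≤ err := by positivity
  have herr2 : err ≤ 80 * (η / w * (1 + Real.log (M / η)) + η / M) := by
    have h1 : s * η = 2 * (η / w) := by rw [hs]; ring
    have h2 : 0 ≤ η / M := by positivity
    rw [herr, h1]
    nlinarith
  have hwin : ∀ a b, -err ≤ ∫ u, φ u * (η * fc η a b u) := fun a b =>
    window φ s M hs0 hMp hφ0 hφ1 hφL hsupp η hη hη1 a b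
  have hdia : ∀ a, E1 ≤ a → a ≤ E2 → Real.pi / 2 ≤ ∫ u, φ u * (η * fc η a a u) := by
    intro a ha1 ha2
    refine window_diag φ hφc hφ0 hφ1 η a hη fun u hu => ?_
    have h1 := abs_le.1 hu
    refine tp_in A B s u ?_ ?_
    · rw [hs, ← mul_div_assoc, le_div_iff₀ hw0]
      linarith [h1.1]
    · rw [hs, ← mul_div_assoc, le_div_iff₀ hw0]
      linarith [h1.2]
  have hlow : ∀ (V : T d L → ℝ) (ψ : T d L → T d L → ℂ) (E : T d L → ℝ), EB σ V ψ E →
      Real.pi / 2 * ∑ j ∈ Finset.univ.filter (fun j => E1 ≤ E j ∧ E j ≤ E2), Aj (ψ j) (ψ j) ≤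
      FF φ A B η σ V + err * N * Λ := fun V ψ E h =>
    FF_lower h φ hφc A B η E1 E2 err hη hsupp0 herr0 hwin hdia
  have hAB : A ≤ B := by rw [hA, hB]; linarith
  obtain ⟨hint, havg⟩ := FF_avg (d := d) (L := L) μ φ hφc hφ0 hφ1 A B η σ ε hAB hη hε
    (fun u h1 h2 p hp => hmain u h1 h2 p hp)
  set G : (T d L → ℝ) → ℝ := fun V => FF φ A B η σ V + err * N * Λ with hG
  have hG0 : ∀ V, 0 ≤ G V := by
    intro V
    obtain ⟨ψ, E, h⟩ := exists_EB σ V
    refine le_trans ?_ (hlow V ψ E h)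
    exact mul_nonneg (by positivity) (Finset.sum_nonneg fun j _ => Aj_nonneg _ _)
  have hGi : Integrable G (PL (T d L) μ) := hint.add (integrable_const _)
  have hGavg : ∫ V, G V ∂(PL (T d L) μ) ≤ N * Λ * (ε * (E2 - E1 + 2) + err) := by
    rw [hG]
    rw [integral_add hint (integrable_const _), integral_const, probReal_univ, one_smul]
    have h1 : N * Λ * (ε * (B - A)) ≤ N * Λ * (ε * (E2 - E1 + 2)) := by
      refine mul_le_mul_of_nonneg_left (mul_le_mul_of_nonneg_left ?_ hε) (by positivity)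
      rw [hA, hB]
      linarith
    have h2 := havg.trans h1
    nlinarith
  set a : ℝ := t ^ 3 / Λ with ha
  have ha0 : 0 < a := by positivity
  refine ⟨{V | a * N ≤ G V}, ?_, ?_, ?_⟩
  · exact measurableSet_le measurable_const ((FF_meas φ hφc A B η σ hη).add_const _)
  · have h1 := mul_meas_ge_le_integral_of_nonneg (μ := PL (T d L) μ)
      (Eventually.of_forall hG0) hGi (a * N)
    have h2 := h1.trans hGavg
    have h3 : (PL (T d L) μ).real {V | a * N ≤ G V} ≤ Λ * (ε * (E2 - E1 + 2) + err) / a := by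
      rw [le_div_iff₀ ha0]
      have h4 : N * ((PL (T d L) μ).real {V | a * N ≤ G V} * a) ≤
          N * (Λ * (ε * (E2 - E1 + 2) + err)) := by
        calc N * ((PL (T d L) μ).real {V | a * N ≤ G V} * a) =
            a * N * (PL (T d L) μ).real {V | a * N ≤ G V} := by ring
          _ ≤ _ := h2
          _ = _ := by ring
      exact le_of_mul_le_mul_left h4 hN0
    refine h3.trans ?_
    have h5 : Λ * (ε * (E2 - E1 + 2) + err) / a = Λ ^ 2 * (ε * (E2 - E1 + 2) + err) / t ^ 3 := by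
      rw [ha]
      field_simp
    rw [h5]
    have h6 : (2 + Real.log L) ^ (2 * d) = Λ ^ 2 := by
      rw [hΛ, ← pow_mul, mul_comm]
    rw [h6]
    refine div_le_div_of_nonneg_right ?_ (by positivity)
    refine mul_le_mul_of_nonneg_left ?_ (by positivity)
    linarith
  · intro V hV ψ E h S hS
    have hV' : G V < a * N := by
      by_contra hc
      push Not at hc
      exact hV hc
    have h1 := hlow V ψ E h
    have h2 : ∀ j ∈ S, t ^ 2 ≤ Λ * Aj (ψ j) (ψ j) := by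
      intro j hj
      obtain ⟨-, y, ℓ, hℓ, hbox⟩ := hS j hj
      have h3 := box_bound (fun x => ‖ψ j x‖ ^ 2) (EB_norm h j) y ℓ hℓ
      rw [← Aj_diag] at h3
      refine le_trans ?_ h3
      rw [← sq_abs (∑ x ∈ bx y ℓ, ‖ψ j x‖ ^ 2 - ∏ i, ((ℓ i : ℝ) / L))]
      exact pow_le_pow_left₀ ht.le hbox.le 2
    have h3 : (S.card : ℝ) * t ^ 2 ≤ Λ * ∑ j ∈ S, Aj (ψ j) (ψ j) := by
      rw [← nsmul_eq_mul, ← Finset.sum_const, Finset.mul_sum]
      exact Finset.sum_le_sum h2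
    have h4 : ∑ j ∈ S, Aj (ψ j) (ψ j) ≤
        ∑ j ∈ Finset.univ.filter (fun j => E1 ≤ E j ∧ E j ≤ E2), Aj (ψ j) (ψ j) := by
      refine Finset.sum_le_sum_of_subset_of_nonneg ?_ (fun j _ _ => Aj_nonneg _ _)
      intro j hj
      exact Finset.mem_filter.2 ⟨Finset.mem_univ _, (hS j hj).1⟩
    have h5 : ∑ j ∈ Finset.univ.filter (fun j => E1 ≤ E j ∧ E j ≤ E2), Aj (ψ j) (ψ j) ≤
        a * N := by
      have hp : (1 : ℝ) ≤ Real.pi / 2 := by
        have := Real.pi_gt_three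
        linarith
      have h6 : 0 ≤ ∑ j ∈ Finset.univ.filter (fun j => E1 ≤ E j ∧ E j ≤ E2), Aj (ψ j) (ψ j) :=
        Finset.sum_nonneg fun j _ => Aj_nonneg _ _
      have h7 : G V = FF φ A B η σ V + err * N * Λ := rfl
      nlinarith
    have h6 : (S.card : ℝ) * t ^ 2 ≤ Λ * (a * N) :=
      h3.trans (mul_le_mul_of_nonneg_left (h4.trans h5) (by positivity))
    have h7 : Λ * (a * N) = t * N * t ^ 2 := by
      rw [ha]
      field_simp
    rw [h7] at h6
    exact le_of_mul_le_mul_right h6 (by positivity)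

end Pool.Agent.Zk96.QE
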